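import Pool.Agent.Y474.TRIV.A

/-!
Project Y826/Z, TRIV: moments.
-/

set_option autoImplicit false

namespace Pool.Agent.Y474.TRIV

open Finset Filter
open Pool.Agent.Y826.Z

/-- two variables to one -/
theorem two_one (M R : ℕ) (H : ℕ → ℝ) (hH : ∀ n, 0 ≤ H n) :
    ∑ t ∈ Icc 1 M, ∑ r ∈ Icc 1 R, H (t * r) ≤ ∑ n ∈ Icc 1 (M * R), tau n * H n := by
  rw [← sum_product' (Icc 1 M) (Icc 1 R) (fun t r => H (t * r))]
  rw [← sum_fiberwise_of_maps_to (s := Icc 1 M ×ˢ Icc 1 R) (t := Icc 1 (M * R))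
    (g := fun i => i.1 * i.2)]
  · apply sum_le_sum
    intro n hn
    rw [mem_Icc] at hn
    have h1 : ∑ i ∈ (Icc 1 M ×ˢ Icc 1 R).filter (fun i => i.1 * i.2 = n), H (i.1 * i.2) =
        (((Icc 1 M ×ˢ Icc 1 R).filter (fun i => i.1 * i.2 = n)).card : ℝ) * H n := by
      rw [sum_congr rfl (g := fun _ => H n), sum_const, nsmul_eq_mul]
      intro i hi
      rw [mem_filter] at hi
      rw [hi.2]
    rw [h1]
    apply mul_le_mul_of_nonneg_right _ (hH n)
    have h2 : ((Icc 1 M ×ˢ Icc 1 R).filter (fun i => i.1 * i.2 = n)).card ≤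
        n.divisorsAntidiagonal.card := by
      apply card_le_card
      intro i hi
      rw [mem_filter] at hi
      rw [Nat.mem_divisorsAntidiagonal]
      exact ⟨hi.2, by omega⟩
    have h3 : n.divisorsAntidiagonal.card = n.divisors.card := by
      rw [← Nat.map_div_right_divisors, card_map]
    unfold tau
    exact_mod_cast h2.trans h3.le
  · intro i hi
    rw [mem_product, mem_Icc, mem_Icc] at hi
    rw [mem_Icc]
    exact ⟨Nat.mul_pos hi.1.1 hi.2.1, Nat.mul_le_mul hi.1.2 hi.2.2⟩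

theorem tau_pow_sum (k L : ℕ) : ∑ n ∈ Icc 1 L, tau n ^ k ≤ L * (1 + Real.log L) ^ (2 ^ k) :=
  Pool.Agent.TH935.LD.tau_pow_sum k L

theorem shift_sum (k L H : ℕ) (hk : 0 < k) (c : ℤ) (hc : c.natAbs ≤ H) :
    ∑ x ∈ Icc 1 L, tau ((x : ℤ) + c).natAbs ^ k ≤ 2 * ∑ y ∈ Icc 1 (L + H), tau y ^ k := by
  classical
  rw [← sum_filter_add_sum_filter_not (Icc 1 L) (fun x : ℕ => 0 ≤ (x : ℤ) + c)]
  have key : ∀ S : Finset ℕ, S ⊆ Icc 1 L → Set.InjOn (fun x : ℕ => ((x : ℤ) + c).natAbs) (S : Set ℕ) →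
      ∑ x ∈ S, tau ((x : ℤ) + c).natAbs ^ k ≤ ∑ y ∈ Icc 1 (L + H), tau y ^ k := by
    intro S hS hinj
    have h1 : ∑ x ∈ S, tau ((x : ℤ) + c).natAbs ^ k =
        ∑ y ∈ S.image (fun x : ℕ => ((x : ℤ) + c).natAbs), tau y ^ k := by
      rw [sum_image hinj]
    rw [h1]
    have h2 : ∑ y ∈ Icc 1 (L + H), tau y ^ k = ∑ y ∈ Icc 0 (L + H), tau y ^ k := by
      apply sum_subset (Icc_subset_Icc (by omega) le_rfl)
      intro y hy hy2
      have : y = 0 := by
        rw [mem_Icc] at hy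
        by_contra h0
        exact hy2 (mem_Icc.2 ⟨by omega, hy.2⟩)
      subst this
      have : tau 0 = 0 := by simp [tau]
      rw [this, zero_pow hk.ne']
    rw [h2]
    apply sum_le_sum_of_subset_of_nonneg
    · intro y hy
      obtain ⟨x, hx, rfl⟩ := mem_image.1 hy
      have hx' := mem_Icc.1 (hS hx)
      rw [mem_Icc]
      refine ⟨Nat.zero_le _, ?_⟩
      refine (Int.natAbs_add_le _ _).trans ?_
      rw [Int.natAbs_natCast]
      omega
    · intro y _ _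
      exact pow_nonneg (tau_nonneg y) k
  have h1 := key ((Icc 1 L).filter (fun x : ℕ => 0 ≤ (x : ℤ) + c)) (filter_subset _ _) (by
    intro x hx y hy hxy
    have hx' := (mem_filter.1 (mem_coe.1 hx)).2
    have hy' := (mem_filter.1 (mem_coe.1 hy)).2
    simp only at hxy
    omega)
  have h2 := key ((Icc 1 L).filter (fun x : ℕ => ¬ 0 ≤ (x : ℤ) + c)) (filter_subset _ _) (by
    intro x hx y hy hxy
    have hx' := (mem_filter.1 (mem_coe.1 hx)).2
    have hy' := (mem_filter.1 (mem_coe.1 hy)).2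
    simp only at hxy
    omega)
  linarith

variable {K : ℕ} {h : Fin K → ℤ}

theorem Gd_nonneg (x : ℕ) : 0 ≤ Gd h x := prod_nonneg fun _ _ => tau_nonneg _

theorem amgm (x : ℕ) : tau x ^ 3 * Gd h x ^ 7 ≤
    tau x ^ (3 + 7 * K) + ∑ j, tau ((x : ℤ) + h j).natAbs ^ (3 + 7 * K) := by
  classical
  set y : Option (Fin K) → ℝ := fun i => i.elim (tau x) (fun j => tau ((x : ℤ) + h j).natAbs) with hy
  have hy0 : ∀ i, 0 ≤ y i := by
    intro i
    cases i with
    | none => exact tau_nonneg _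
    | some j => exact tau_nonneg _
  obtain ⟨i0, -, hi0⟩ := exists_max_image univ y ⟨none, mem_univ _⟩
  have h1 : tau x ^ 3 * Gd h x ^ 7 ≤ y i0 ^ (3 + 7 * K) := by
    have h2 : tau x ≤ y i0 := hi0 none (mem_univ _)
    have h3 : Gd h x ≤ y i0 ^ K := by
      unfold Gd
      calc ∏ j, tau ((x : ℤ) + h j).natAbs ≤ ∏ _j : Fin K, y i0 :=
            prod_le_prod (fun _ _ => tau_nonneg _) (fun j _ => hi0 (some j) (mem_univ _))
        _ = y i0 ^ K := by rw [prod_const, card_univ, Fintype.card_fin]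
    have h4 := hy0 i0
    calc tau x ^ 3 * Gd h x ^ 7 ≤ y i0 ^ 3 * (y i0 ^ K) ^ 7 := by
          have := tau_nonneg x
          have := Gd_nonneg (h := h) x
          gcongr
      _ = y i0 ^ (3 + 7 * K) := by rw [← pow_mul, ← pow_add, mul_comm K 7]
  have h5 : y i0 ^ (3 + 7 * K) ≤ ∑ i, y i ^ (3 + 7 * K) :=
    single_le_sum (f := fun i => y i ^ (3 + 7 * K)) (fun i _ => pow_nonneg (hy0 i) _) (mem_univ i0)
  refine (h1.trans h5).trans (le_of_eq ?_)
  rw [Fintype.sum_option]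
  rfl

theorem sum_H (L H : ℕ) (hH : ∀ j, (h j).natAbs ≤ H) :
    ∑ x ∈ Icc 1 L, tau x ^ 3 * Gd h x ^ 7 ≤
      (2 * K + 1) * (((L + H : ℕ) : ℝ) * (1 + Real.log ((L + H : ℕ) : ℝ)) ^ (2 ^ (3 + 7 * K))) := by
  set B : ℝ := ((L + H : ℕ) : ℝ) * (1 + Real.log ((L + H : ℕ) : ℝ)) ^ (2 ^ (3 + 7 * K)) with hB
  have h1 := tau_pow_sum (3 + 7 * K) (L + H)
  have h0 : ∑ x ∈ Icc 1 L, tau x ^ (3 + 7 * K) ≤ B :=
    (sum_le_sum_of_subset_of_nonneg (Icc_subset_Icc le_rfl (Nat.le_add_right L H))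
      fun y _ _ => pow_nonneg (tau_nonneg y) _).trans h1
  have h2 : ∀ j, ∑ x ∈ Icc 1 L, tau ((x : ℤ) + h j).natAbs ^ (3 + 7 * K) ≤ 2 * B := by
    intro j
    refine (shift_sum _ L H (by omega) (h j) (hH j)).trans ?_
    linarith
  calc ∑ x ∈ Icc 1 L, tau x ^ 3 * Gd h x ^ 7
      ≤ ∑ x ∈ Icc 1 L, (tau x ^ (3 + 7 * K) + ∑ j, tau ((x : ℤ) + h j).natAbs ^ (3 + 7 * K)) :=
        sum_le_sum fun x _ => amgm x
    _ = ∑ x ∈ Icc 1 L, tau x ^ (3 + 7 * K) +
        ∑ j, ∑ x ∈ Icc 1 L, tau ((x : ℤ) + h j).natAbs ^ (3 + 7 * K) := by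
        rw [sum_add_distrib, sum_comm]
    _ ≤ B + ∑ _j : Fin K, 2 * B := add_le_add h0 (sum_le_sum fun j _ => h2 j)
    _ = (2 * K + 1) * B := by
        rw [sum_const, card_univ, Fintype.card_fin, nsmul_eq_mul]
        ring

theorem tau_mono {a b : ℕ} (hab : a ∣ b) (hb : b ≠ 0) : tau a ≤ tau b := by
  unfold tau
  exact_mod_cast card_le_card (Nat.divisors_subset_of_dvd hb hab)

/-- the moment -/
theorem mom (h : Fin K → ℤ) : ∃ (C1 : ℝ) (C2 : ℕ), 0 < C1 ∧ ∀ᶠ X : ℝ in atTop, ∀ M N : ℕ,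
    (M : ℝ) * N ≤ 16 * X → ∀ β : ℕ → ℝ, (∀ n ∈ Ioc N (2 * N), |β n| ≤ tau n * Real.log X) →
    ∑ m ∈ Ioc M (2 * M), ∑ n ∈ Ioc N (2 * N), β n ^ 2 * Gd h (m * n) ^ 7 ≤
      C1 * X * Real.log X ^ C2 := by
  set k := 3 + 7 * K with hk
  set H : ℕ := ∑ j, (h j).natAbs with hH
  refine ⟨(2 * K + 1) * (65 * 3 ^ (2 ^ k)), 2 + 2 ^ k, by positivity, ?_⟩
  filter_upwards [eventually_ge_atTop (Real.exp 1), eventually_ge_atTop (65 : ℝ),
    eventually_ge_atTop (H : ℝ)] with X hX1 hX2 hX3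
  intro M N hMN β hβ
  have hL : 1 ≤ Real.log X := by
    rw [Real.le_log_iff_exp_le (by linarith)]
    exact hX1
  have hX0 : 0 < X := by linarith
  -- reduce to one variable
  have h1 : ∑ m ∈ Ioc M (2 * M), ∑ n ∈ Ioc N (2 * N), β n ^ 2 * Gd h (m * n) ^ 7 ≤
      Real.log X ^ 2 * ∑ m ∈ Icc 1 (2 * M), ∑ n ∈ Icc 1 (2 * N),
        tau (m * n) ^ 2 * Gd h (m * n) ^ 7 := by
    rw [mul_sum]
    have hs1 : Ioc M (2 * M) ⊆ Icc 1 (2 * M) := by
      intro m hm
      rw [mem_Ioc] at hm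
      exact mem_Icc.2 ⟨by omega, hm.2⟩
    have hs2 : Ioc N (2 * N) ⊆ Icc 1 (2 * N) := by
      intro m hm
      rw [mem_Ioc] at hm
      exact mem_Icc.2 ⟨by omega, hm.2⟩
    have hnn : ∀ m n : ℕ, 0 ≤ Real.log X ^ 2 * (tau (m * n) ^ 2 * Gd h (m * n) ^ 7) := by
      intro m n
      have := tau_nonneg (m * n)
      have := Gd_nonneg (h := h) (m * n)
      positivity
    calc ∑ m ∈ Ioc M (2 * M), ∑ n ∈ Ioc N (2 * N), β n ^ 2 * Gd h (m * n) ^ 7
        ≤ ∑ m ∈ Ioc M (2 * M), ∑ n ∈ Ioc N (2 * N),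
          Real.log X ^ 2 * (tau (m * n) ^ 2 * Gd h (m * n) ^ 7) := by
          apply sum_le_sum
          intro m hm
          apply sum_le_sum
          intro n hn
          have hm' := mem_Ioc.1 hm
          have hn' := mem_Ioc.1 hn
          have h2 := hβ n hn
          have h3 : tau n ≤ tau (m * n) :=
            tau_mono (Dvd.intro_left _ rfl) (Nat.mul_pos (by omega) (by omega)).ne'
          have h4 : β n ^ 2 ≤ Real.log X ^ 2 * tau (m * n) ^ 2 := by
            rw [← sq_abs, ← mul_pow]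
            apply pow_le_pow_left₀ (abs_nonneg _)
            calc |β n| ≤ tau n * Real.log X := h2
              _ ≤ tau (m * n) * Real.log X := mul_le_mul_of_nonneg_right h3 (by linarith)
              _ = _ := mul_comm _ _
          have h5 := pow_nonneg (Gd_nonneg (h := h) (m * n)) 7
          calc β n ^ 2 * Gd h (m * n) ^ 7 ≤ (Real.log X ^ 2 * tau (m * n) ^ 2) * Gd h (m * n) ^ 7 :=
                mul_le_mul_of_nonneg_right h4 h5
            _ = _ := by ring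
      _ ≤ ∑ m ∈ Icc 1 (2 * M), ∑ n ∈ Icc 1 (2 * N),
          Real.log X ^ 2 * (tau (m * n) ^ 2 * Gd h (m * n) ^ 7) := by
          refine (sum_le_sum fun m _ => sum_le_sum_of_subset_of_nonneg hs2
            fun n _ _ => hnn m n).trans ?_
          exact sum_le_sum_of_subset_of_nonneg hs1 fun m _ _ => sum_nonneg fun n _ => hnn m n
      _ = _ := by
          apply sum_congr rfl
          intro m _
          rw [mul_sum]
  have h6 := two_one (2 * M) (2 * N) (fun x => tau x ^ 2 * Gd h x ^ 7) (fun x => by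
    have := tau_nonneg x
    have := Gd_nonneg (h := h) x
    positivity)
  have h7 : ∑ n ∈ Icc 1 (2 * M * (2 * N)), tau n * (tau n ^ 2 * Gd h n ^ 7) =
      ∑ x ∈ Icc 1 (2 * M * (2 * N)), tau x ^ 3 * Gd h x ^ 7 := by
    apply sum_congr rfl
    intro x _
    ring
  rw [h7] at h6
  have h8 := sum_H (h := h) (2 * M * (2 * N)) H (fun j =>
    single_le_sum (f := fun j => (h j).natAbs) (fun _ _ => Nat.zero_le _) (mem_univ j))
  set L : ℕ := 2 * M * (2 * N) with hLdef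
  have h9 : ((L + H : ℕ) : ℝ) ≤ 65 * X := by
    rw [hLdef]
    push_cast
    nlinarith
  have h10 : 1 + Real.log ((L + H : ℕ) : ℝ) ≤ 3 * Real.log X := by
    rcases Nat.eq_zero_or_pos (L + H) with h0 | h0
    · rw [h0]
      simp only [Nat.cast_zero, Real.log_zero]
      linarith
    · have h11 : (0 : ℝ) < ((L + H : ℕ) : ℝ) := by exact_mod_cast h0
      have h12 : Real.log ((L + H : ℕ) : ℝ) ≤ Real.log (X ^ 2) := by
        apply Real.log_le_log h11
        nlinarith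
      rw [Real.log_pow] at h12
      push_cast at h12
      push_cast
      linarith
  have h11 : 0 ≤ 1 + Real.log ((L + H : ℕ) : ℝ) := by
    have := Real.log_natCast_nonneg (L + H)
    linarith
  calc ∑ m ∈ Ioc M (2 * M), ∑ n ∈ Ioc N (2 * N), β n ^ 2 * Gd h (m * n) ^ 7
      ≤ Real.log X ^ 2 * ((2 * K + 1) * (((L + H : ℕ) : ℝ) *
          (1 + Real.log ((L + H : ℕ) : ℝ)) ^ (2 ^ k))) :=
        h1.trans (mul_le_mul_of_nonneg_left (h6.trans h8) (by positivity))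
    _ ≤ Real.log X ^ 2 * ((2 * K + 1) * ((65 * X) * (3 * Real.log X) ^ (2 ^ k))) := by
        gcongr
    _ = _ := by ring

end Pool.Agent.Y474.TRIV
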