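import Pool.Agent.Y474.TRIV.A

/-!
Project Y826/Z, TRIV: sums of the mean values over tuples.
-/

set_option autoImplicit false

namespace Pool.Agent.Y474.TRIV

open Finset Filter
open Pool.Agent.Y826.Z

theorem self_le_totient (r : ℕ) : r ≤ r.totient * r.divisors.card := by
  rcases Nat.eq_zero_or_pos r with h0 | h0
  · subst h0; simp
  calc r = ∑ d ∈ r.divisors, d.totient := (Nat.sum_totient r).symm
    _ ≤ ∑ d ∈ r.divisors, r.totient := by
        apply sum_le_sum
        intro d hd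
        exact Nat.le_of_dvd (Nat.totient_pos.2 h0)
          (Nat.totient_dvd_of_dvd (Nat.dvd_of_mem_divisors hd))
    _ = r.totient * r.divisors.card := by rw [sum_const, smul_eq_mul, mul_comm]

theorem tau_mul_le (a b : ℕ) : tau (a * b) ≤ tau a * tau b := by
  unfold tau
  exact_mod_cast Pool.Agent.TH935.DSB.tau_mul a b

/-- the weight `τ(y)/y` -/
noncomputable def wt (y : ℕ) : ℝ := tau y / y

theorem wt_nonneg (y : ℕ) : 0 ≤ wt y := by
  unfold wt tau
  positivity

theorem wt_mul_le (a b : ℕ) : wt (a * b) ≤ wt a * wt b := by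
  unfold wt
  rw [div_mul_div_comm]
  push_cast
  exact div_le_div_of_nonneg_right (tau_mul_le a b) (by positivity)

theorem inv_tot_le (n : ℕ) (hn : 1 ≤ n) : 1 / (Nat.totient n : ℝ) ≤ wt n := by
  unfold wt tau
  have h1 := self_le_totient n
  have h2 : (0 : ℝ) < Nat.totient n := by exact_mod_cast Nat.totient_pos.2 hn
  have h3 : (0 : ℝ) < n := by exact_mod_cast hn
  rw [div_le_div_iff₀ h2 h3, one_mul, mul_comm]
  exact_mod_cast h1

variable {K : ℕ}

/-- weight of a tuple -/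
noncomputable def wT (u : Fin K → ℕ) : ℝ := ∏ j, wt (u j)

theorem wT_nonneg (u : Fin K → ℕ) : 0 ≤ wT u := prod_nonneg fun _ _ => wt_nonneg _

theorem wt_prod_le {ι : Type*} (s : Finset ι) (g : ι → ℕ) : wt (∏ i ∈ s, g i) ≤ ∏ i ∈ s, wt (g i) := by
  classical
  induction s using Finset.induction_on with
  | empty =>
    simp [wt, tau]
  | insert i s hi ih =>
    rw [prod_insert hi, prod_insert hi]
    exact (wt_mul_le _ _).trans (mul_le_mul_of_nonneg_left ih (wt_nonneg _))

theorem wt_Pr_le (u : Fin K → ℕ) : wt (Pr u) ≤ wT u := wt_prod_le _ _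

theorem inv_phi_pair {z : (Fin K → ℕ) × (Fin K → ℕ)} (hz : 1 ≤ Pr z.1 * Pr z.2) :
    1 / (Nat.totient (Pr z.1 * Pr z.2) : ℝ) ≤ wT z.1 * wT z.2 :=
  (inv_tot_le _ hz).trans ((wt_mul_le _ _).trans
    (mul_le_mul (wt_Pr_le _) (wt_Pr_le _) (wt_nonneg _) (wT_nonneg _)))

/-- the sum of the weights -/
noncomputable def S0 (Z : ℕ) : ℝ := ∑ y ∈ Icc 1 Z, wt y

theorem S0_nonneg (Z : ℕ) : 0 ≤ S0 Z := sum_nonneg fun _ _ => wt_nonneg _

theorem S0_le (Z : ℕ) : S0 Z ≤ (1 + Real.log Z) ^ 2 := by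
  have h := Pool.Agent.TH935.LD.tau_pow_div 1 Z
  simp only [pow_one] at h
  exact h

/-- the box -/
def Bo (K Z : ℕ) : Finset (Fin K → ℕ) := Fintype.piFinset (fun _ => Icc 1 Z)

theorem sum_Bo (Z : ℕ) : ∑ u ∈ Bo K Z, wT u = S0 Z ^ K := by
  unfold Bo wT S0
  rw [← prod_univ_sum (fun _ : Fin K => Icc 1 Z) (fun _ y => wt y)]
  rw [prod_const, card_univ, Fintype.card_fin]

theorem sum_div (Z p : ℕ) (hp : p.Prime) :
    ∑ y ∈ Icc 1 Z, (if p ∣ y then wt y else 0) ≤ 2 / p * S0 Z := by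
  have h1 : ∑ y ∈ Icc 1 Z, (if p ∣ y then wt y else 0) ≤ ∑ y ∈ Icc 1 Z, wt (p * y) := by
    rw [← sum_filter]
    have h2 : (Icc 1 Z).filter (fun y => p ∣ y) ⊆ (Icc 1 Z).image (fun y => p * y) := by
      intro y hy
      obtain ⟨h3, k, rfl⟩ := mem_filter.1 hy
      rw [mem_Icc] at h3
      rw [mem_image]
      refine ⟨k, mem_Icc.2 ⟨?_, ?_⟩, rfl⟩
      · rcases Nat.eq_zero_or_pos k with h | h
        · subst h; omega
        · exact h
      · exact (Nat.le_mul_of_pos_left k hp.pos).trans h3.2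
    refine (sum_le_sum_of_subset_of_nonneg h2 fun _ _ _ => wt_nonneg _).trans (le_of_eq ?_)
    rw [sum_image]
    intro a _ b _ hab
    exact Nat.eq_of_mul_eq_mul_left hp.pos hab
  refine h1.trans ?_
  unfold S0
  rw [mul_sum]
  apply sum_le_sum
  intro y _
  refine (wt_mul_le p y).trans ?_
  apply mul_le_mul_of_nonneg_right _ (wt_nonneg _)
  unfold wt tau
  rw [hp.divisors, card_pair hp.one_lt.ne]
  norm_num

open Classical in
theorem sum_Bo_div (Z p : ℕ) (hp : p.Prime) :
    ∑ u ∈ Bo K Z, (if p ∣ Pr u then wT u else 0) ≤ 2 * K / p * S0 Z ^ K := by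
  have h1 : ∀ u ∈ Bo K Z, (if p ∣ Pr u then wT u else 0) ≤
      ∑ j : Fin K, if p ∣ u j then wT u else 0 := by
    intro u _
    split_ifs with h
    · obtain ⟨j, -, hj⟩ := (Prime.dvd_finsetProd_iff hp.prime _).1 h
      have : (if p ∣ u j then wT u else 0) ≤ ∑ j : Fin K, if p ∣ u j then wT u else 0 :=
        single_le_sum (f := fun j => if p ∣ u j then wT u else 0)
          (fun i _ => by
            split_ifs
            · exact wT_nonneg u
            · exact le_rfl) (mem_univ j)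
      rwa [if_pos hj] at this
    · apply sum_nonneg
      intro j _
      split_ifs
      · exact wT_nonneg u
      · exact le_rfl
  refine (sum_le_sum h1).trans ?_
  rw [sum_comm]
  have h2 : ∀ j ∈ (univ : Finset (Fin K)), ∑ u ∈ Bo K Z, (if p ∣ u j then wT u else 0) ≤
      2 / p * S0 Z ^ K := by
    intro j _
    have e1 : ∀ u : Fin K → ℕ, (if p ∣ u j then wT u else 0) =
        ∏ i, (fun (i : Fin K) (y : ℕ) => if i = j then (if p ∣ y then wt y else 0) else wt y) i (u i) := by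
      intro u
      by_cases hj : p ∣ u j
      · rw [if_pos hj]
        unfold wT
        apply prod_congr rfl
        intro i _
        by_cases hij : i = j
        · subst hij
          simp [hj]
        · simp [hij]
      · rw [if_neg hj]
        symm
        apply prod_eq_zero (mem_univ j)
        simp [hj]
    simp only [e1]
    unfold Bo
    rw [← prod_univ_sum (fun _ : Fin K => Icc 1 Z)
      (fun (i : Fin K) (y : ℕ) => if i = j then (if p ∣ y then wt y else 0) else wt y)]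
    have h3 : ∀ i ∈ (univ : Finset (Fin K)), ∑ y ∈ Icc 1 Z,
        (if i = j then (if p ∣ y then wt y else 0) else wt y) ≤
        (if i = j then (2 / p : ℝ) else 1) * S0 Z := by
      intro i _
      by_cases hij : i = j
      · simp only [hij, if_true]
        exact sum_div Z p hp
      · simp only [hij, if_false, one_mul]
        exact le_rfl
    refine (prod_le_prod (fun i _ => sum_nonneg fun y _ => ?_) h3).trans (le_of_eq ?_)
    · split_ifs
      · exact wt_nonneg _
      · exact le_rfl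
      · exact wt_nonneg _
    · rw [prod_mul_distrib, prod_ite_eq' univ j (fun _ => (2 / p : ℝ)), if_pos (mem_univ _),
        prod_const, card_univ, Fintype.card_fin]
  refine (sum_le_sum h2).trans (le_of_eq ?_)
  rw [sum_const, card_univ, Fintype.card_fin, nsmul_eq_mul]
  ring

/-- the conditions on the pairs of tuples -/
structure OKP (Z D : ℕ) (P : Finset ((Fin K → ℕ) × (Fin K → ℕ))) : Prop where
  box : ∀ z ∈ P, z.1 ∈ Bo K Z ∧ z.2 ∈ Bo K Z
  pr : ∀ z ∈ P, ∀ p : ℕ, p.Prime → p ∣ Pr z.1 * Pr z.2 → D < p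

/-- the mean value of a pair -/
noncomputable def FF (z : (Fin K → ℕ) × (Fin K → ℕ)) : ℝ := 1 / (Nat.totient (Pr z.1 * Pr z.2) : ℝ)

theorem FF_nonneg (z : (Fin K → ℕ) × (Fin K → ℕ)) : 0 ≤ FF z := by
  unfold FF
  positivity

theorem Pr_pos {Z : ℕ} {u : Fin K → ℕ} (hu : u ∈ Bo K Z) : 1 ≤ Pr u := by
  unfold Pr
  apply Finset.one_le_prod'
  intro j _
  exact (mem_Icc.1 ((Fintype.mem_piFinset.1 hu) j)).1

theorem sum_FF {Z D : ℕ} {P : Finset ((Fin K → ℕ) × (Fin K → ℕ))} (hP : OKP Z D P) :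
    ∑ z ∈ P, FF z ≤ S0 Z ^ (2 * K) := by
  have hsub : P ⊆ Bo K Z ×ˢ Bo K Z := fun z hz => mem_product.2 (hP.box z hz)
  calc ∑ z ∈ P, FF z ≤ ∑ z ∈ P, wT z.1 * wT z.2 := by
        apply sum_le_sum
        intro z hz
        exact inv_phi_pair (Nat.mul_pos (Pr_pos (hP.box z hz).1) (Pr_pos (hP.box z hz).2))
    _ ≤ ∑ z ∈ Bo K Z ×ˢ Bo K Z, wT z.1 * wT z.2 :=
        sum_le_sum_of_subset_of_nonneg hsub fun z _ _ => mul_nonneg (wT_nonneg _) (wT_nonneg _)
    _ = S0 Z ^ (2 * K) := by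
        rw [sum_product, ← sum_mul_sum, sum_Bo]
        ring

open Classical in
theorem sum_FF_div {Z D : ℕ} {P : Finset ((Fin K → ℕ) × (Fin K → ℕ))} (hP : OKP Z D P)
    (p : ℕ) (hp : p.Prime) :
    ∑ z ∈ P, (if p ∣ Pr z.1 * Pr z.2 then FF z else 0) ≤ 4 * K / p * S0 Z ^ (2 * K) := by
  have hsub : P ⊆ Bo K Z ×ˢ Bo K Z := fun z hz => mem_product.2 (hP.box z hz)
  have hnn : ∀ z : (Fin K → ℕ) × (Fin K → ℕ), 0 ≤ wT z.1 * (if p ∣ Pr z.2 then wT z.2 else 0) +
      (if p ∣ Pr z.1 then wT z.1 else 0) * wT z.2 := by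
    intro z
    have h1 := wT_nonneg z.1
    have h2 := wT_nonneg z.2
    split_ifs <;> positivity
  calc ∑ z ∈ P, (if p ∣ Pr z.1 * Pr z.2 then FF z else 0)
      ≤ ∑ z ∈ P, (wT z.1 * (if p ∣ Pr z.2 then wT z.2 else 0) +
          (if p ∣ Pr z.1 then wT z.1 else 0) * wT z.2) := by
        apply sum_le_sum
        intro z hz
        split_ifs with h0 h1 h2 h2
        · have := inv_phi_pair (Nat.mul_pos (Pr_pos (hP.box z hz).1) (Pr_pos (hP.box z hz).2))
          have h3 := mul_nonneg (wT_nonneg z.1) (wT_nonneg z.2)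
          show 1 / _ ≤ _
          linarith
        · have := inv_phi_pair (Nat.mul_pos (Pr_pos (hP.box z hz).1) (Pr_pos (hP.box z hz).2))
          rw [zero_mul, add_zero]
          exact this
        · have := inv_phi_pair (Nat.mul_pos (Pr_pos (hP.box z hz).1) (Pr_pos (hP.box z hz).2))
          rw [mul_zero, zero_add]
          exact this
        · rcases (hp.dvd_mul).1 h0 with h | h
          · exact absurd h h2
          · exact absurd h h1
        all_goals
          have h1 := wT_nonneg z.1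
          have h2 := wT_nonneg z.2
          positivity
    _ ≤ ∑ z ∈ Bo K Z ×ˢ Bo K Z, (wT z.1 * (if p ∣ Pr z.2 then wT z.2 else 0) +
          (if p ∣ Pr z.1 then wT z.1 else 0) * wT z.2) :=
        sum_le_sum_of_subset_of_nonneg hsub fun z _ _ => hnn z
    _ = (∑ u ∈ Bo K Z, wT u) * (∑ u ∈ Bo K Z, if p ∣ Pr u then wT u else 0) +
        (∑ u ∈ Bo K Z, if p ∣ Pr u then wT u else 0) * ∑ u ∈ Bo K Z, wT u := by
        rw [sum_add_distrib, sum_product, sum_product, sum_mul_sum, sum_mul_sum]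
    _ ≤ S0 Z ^ K * (2 * K / p * S0 Z ^ K) + (2 * K / p * S0 Z ^ K) * S0 Z ^ K := by
        rw [sum_Bo]
        have h1 := sum_Bo_div (K := K) Z p hp
        have h2 : 0 ≤ S0 Z ^ K := pow_nonneg (S0_nonneg Z) K
        exact add_le_add (mul_le_mul_of_nonneg_left h1 h2) (mul_le_mul_of_nonneg_right h1 h2)
    _ = _ := by ring

/-- number of the prime factors -/
theorem card_pf {m : ℕ} (hm : 1 ≤ m) : (m.primeFactors.card : ℝ) ≤ 2 * Real.log m := by
  have h1 : 2 ^ m.primeFactors.card ≤ m := by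
    calc 2 ^ m.primeFactors.card = ∏ p ∈ m.primeFactors, 2 := by rw [prod_const]
      _ ≤ ∏ p ∈ m.primeFactors, p := prod_le_prod' fun p hp => (Nat.prime_of_mem_primeFactors hp).two_le
      _ ≤ m := Nat.le_of_dvd hm (Nat.prod_primeFactors_dvd m)
  have h2 : (2 : ℝ) ^ m.primeFactors.card ≤ m := by exact_mod_cast h1
  have h3 := Real.log_le_log (by positivity) h2
  rw [Real.log_pow] at h3
  have h4 := Real.log_two_gt_d9
  have h5 : (0 : ℝ) ≤ m.primeFactors.card := Nat.cast_nonneg _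
  nlinarith

theorem Pr_le {Z : ℕ} {u : Fin K → ℕ} (hu : u ∈ Bo K Z) : Pr u ≤ Z ^ K := by
  unfold Pr
  calc ∏ j, u j ≤ ∏ _j : Fin K, Z :=
        prod_le_prod' fun j _ => (mem_Icc.1 ((Fintype.mem_piFinset.1 hu) j)).2
    _ = Z ^ K := by rw [prod_const, card_univ, Fintype.card_fin]

open Classical in
/-- pairs with a common prime with a given pair -/
theorem sum_FF_common {Z D : ℕ} (hD : 0 < D) {P : Finset ((Fin K → ℕ) × (Fin K → ℕ))}
    (hP : OKP Z D P) {z1 : (Fin K → ℕ) × (Fin K → ℕ)} (hz1 : z1 ∈ P) :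
    ∑ z2 ∈ P, (if (Pr z1.1 * Pr z1.2).Coprime (Pr z2.1 * Pr z2.2) then 0 else FF z2) ≤
      16 * K ^ 2 * Real.log Z * S0 Z ^ (2 * K) / D := by
  set Q := Pr z1.1 * Pr z1.2 with hQ
  have hb1 := hP.box z1 hz1
  have hQ1 : 1 ≤ Q := Nat.mul_pos (Pr_pos hb1.1) (Pr_pos hb1.2)
  have h1 : ∀ z2 ∈ P, (if Q.Coprime (Pr z2.1 * Pr z2.2) then 0 else FF z2) ≤
      ∑ p ∈ Q.primeFactors, if p ∣ Pr z2.1 * Pr z2.2 then FF z2 else 0 := by
    intro z2 _
    split_ifs with h
    · apply sum_nonneg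
      intro p _
      split_ifs
      · exact FF_nonneg _
      · exact le_rfl
    · obtain ⟨p, hp, hp1, hp2⟩ := Nat.Prime.not_coprime_iff_dvd.1 h
      have hmem : p ∈ Q.primeFactors := Nat.mem_primeFactors.2 ⟨hp, hp1, by omega⟩
      have := single_le_sum (f := fun p => if p ∣ Pr z2.1 * Pr z2.2 then FF z2 else 0)
        (fun i _ => by
          split_ifs
          · exact FF_nonneg _
          · exact le_rfl) hmem
      simp only [if_pos hp2] at this
      exact this
  refine (sum_le_sum h1).trans ?_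
  rw [sum_comm]
  have hD' : (0 : ℝ) < D := by exact_mod_cast hD
  have hS : 0 ≤ S0 Z ^ (2 * K) := pow_nonneg (S0_nonneg Z) _
  have h2 : ∀ p ∈ Q.primeFactors, ∑ z2 ∈ P, (if p ∣ Pr z2.1 * Pr z2.2 then FF z2 else 0) ≤
      4 * K / D * S0 Z ^ (2 * K) := by
    intro p hp
    have hpp := Nat.prime_of_mem_primeFactors hp
    refine (sum_FF_div hP p hpp).trans ?_
    have h3 : D < p := hP.pr z1 hz1 p hpp (Nat.dvd_of_mem_primeFactors hp)
    have h4 : (D : ℝ) ≤ p := by exact_mod_cast h3.le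
    gcongr
  refine (sum_le_sum h2).trans ?_
  rw [sum_const, nsmul_eq_mul]
  have h5 : (Q.primeFactors.card : ℝ) ≤ 4 * K * Real.log Z := by
    refine (card_pf hQ1).trans ?_
    have h6 : Q ≤ Z ^ (2 * K) := by
      rw [two_mul, pow_add]
      exact Nat.mul_le_mul (Pr_le hb1.1) (Pr_le hb1.2)
    have h7 : (Q : ℝ) ≤ (Z : ℝ) ^ (2 * K) := by exact_mod_cast h6
    have h8 : Real.log Q ≤ 2 * K * Real.log Z := by
      refine (Real.log_le_log (by exact_mod_cast hQ1) h7).trans (le_of_eq ?_)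
      rw [Real.log_pow]
      push_cast
      ring
    linarith
  calc (Q.primeFactors.card : ℝ) * (4 * K / D * S0 Z ^ (2 * K))
      ≤ (4 * K * Real.log Z) * (4 * K / D * S0 Z ^ (2 * K)) :=
        mul_le_mul_of_nonneg_right h5 (by positivity)
    _ = _ := by ring

end Pool.Agent.Y474.TRIV
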