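import Pool.Agent.Y474.TRIV.B

/-!
Project Y826/Z, TRIV: sums over pairs of tuples with a common prime; the difference `SS - Soff`.
-/

set_option autoImplicit false

namespace Pool.Agent.Y474.TRIV

open Finset Filter
open Pool.Agent.Y826.Z

variable {K : ℕ}

/-- the indicator of a pair of tuples -/
noncomputable def EE (h : Fin K → ℤ) (z : (Fin K → ℕ) × (Fin K → ℕ)) (x : ℕ) : ℝ :=
  ind (Cd h z.1 x ∧ Cd h z.2 x)

theorem EE_nonneg (h : Fin K → ℤ) (z : (Fin K → ℕ) × (Fin K → ℕ)) (x : ℕ) : 0 ≤ EE h z x :=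
  ind_nonneg _

theorem Du_le (h : Fin K → ℤ) (z : (Fin K → ℕ) × (Fin K → ℕ)) (x : ℕ) :
    |Du h z.1 z.2 x| ≤ EE h z x + FF z := by
  unfold Du
  refine (abs_sub _ _).trans ?_
  rw [abs_of_nonneg (ind_nonneg _), abs_mul, abs_of_nonneg (ind_nonneg _),
    abs_of_nonneg (by positivity : (0 : ℝ) ≤ 1 / (Nat.totient (Pr z.1 * Pr z.2) : ℝ))]
  have h1 : (1 / (Nat.totient (Pr z.1 * Pr z.2) : ℝ)) * ind (x.Coprime (Pr z.1 * Pr z.2)) ≤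
      FF z := mul_le_of_le_one_right (FF_nonneg z) (ind_le_one _)
  exact add_le_add le_rfl h1

/-- the constant for the mean values -/
noncomputable def Ph (K Z : ℕ) : ℝ := (1 + S0 Z) ^ (2 * K)

theorem one_le_Ph (Z : ℕ) : 1 ≤ Ph K Z := one_le_pow₀ (by linarith [S0_nonneg Z])

theorem S0_pow_le (Z : ℕ) : S0 Z ^ (2 * K) ≤ Ph K Z :=
  pow_le_pow_left₀ (S0_nonneg Z) (by linarith) _

/-- the saving -/
noncomputable def kap (K Z D : ℕ) : ℝ := 48 * K ^ 2 * Real.log Z * Ph K Z ^ 2 / D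

theorem kap_nonneg (Z D : ℕ) : 0 ≤ kap K Z D := by
  have := one_le_Ph (K := K) Z
  have h2 : 0 ≤ Real.log Z := Real.log_natCast_nonneg Z
  unfold kap
  positivity

theorem sum_EF {h : Fin K → ℤ} {Z D x : ℕ} (hx : Good h x)
    {P : Finset ((Fin K → ℕ) × (Fin K → ℕ))} (hP : OKP Z D P) :
    ∑ z ∈ P, (EE h z x + FF z) ≤ Gd h x ^ 2 + Ph K Z := by
  rw [sum_add_distrib]
  exact add_le_add (card_pairs hx P) ((sum_FF hP).trans (S0_pow_le Z))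

open Classical in
theorem R_bound {h : Fin K → ℤ} {Z D t x1 x2 : ℕ} (hD : 0 < D) (hx1 : Good h x1) (hx2 : Good h x2)
    {P : Finset ((Fin K → ℕ) × (Fin K → ℕ))} (hP : OKP Z D P)
    (ht : ∀ z ∈ P, t.Coprime (Pr z.1 * Pr z.2)) :
    ∑ z1 ∈ P, ∑ z2 ∈ P, (if (Pr z1.1 * Pr z1.2).Coprime (Pr z2.1 * Pr z2.2) then 0 else
      (EE h z1 x1 + FF z1) * (EE h z2 x2 + FF z2)) ≤
      Gd h x1 ^ 2 * Gd h x2 ^ 2 * (ind (BadP h D t x1 x2) + kap K Z D) := by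
  set κ0 : ℝ := 16 * K ^ 2 * Real.log Z * S0 Z ^ (2 * K) / D with hκ0
  have hG1 := one_le_Gd hx1
  have hG2 := one_le_Gd hx2
  have hPh := one_le_Ph (K := K) Z
  have hlog : 0 ≤ Real.log Z := Real.log_natCast_nonneg Z
  have hS := S0_nonneg Z
  have hκ0' : 0 ≤ κ0 := by positivity
  have e1 : ∀ z1 z2 : (Fin K → ℕ) × (Fin K → ℕ),
      (if (Pr z1.1 * Pr z1.2).Coprime (Pr z2.1 * Pr z2.2) then (0 : ℝ) else
        (EE h z1 x1 + FF z1) * (EE h z2 x2 + FF z2)) =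
      (if (Pr z1.1 * Pr z1.2).Coprime (Pr z2.1 * Pr z2.2) then 0 else EE h z1 x1 * EE h z2 x2) +
      ((EE h z1 x1 + FF z1) *
        (if (Pr z1.1 * Pr z1.2).Coprime (Pr z2.1 * Pr z2.2) then 0 else FF z2) +
      EE h z2 x2 * (if (Pr z2.1 * Pr z2.2).Coprime (Pr z1.1 * Pr z1.2) then 0 else FF z1)) := by
    intro z1 z2
    by_cases hc : (Pr z1.1 * Pr z1.2).Coprime (Pr z2.1 * Pr z2.2)
    · rw [if_pos hc, if_pos hc, if_pos hc, if_pos hc.symm]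
      ring
    · rw [if_neg hc, if_neg hc, if_neg hc, if_neg (fun hs => hc hs.symm)]
      ring
  simp only [e1, sum_add_distrib]
  have s1 : ∑ z1 ∈ P, ∑ z2 ∈ P, (if (Pr z1.1 * Pr z1.2).Coprime (Pr z2.1 * Pr z2.2) then 0 else
      EE h z1 x1 * EE h z2 x2) ≤ Gd h x1 ^ 2 * Gd h x2 ^ 2 * ind (BadP h D t x1 x2) := by
    calc ∑ z1 ∈ P, ∑ z2 ∈ P, (if (Pr z1.1 * Pr z1.2).Coprime (Pr z2.1 * Pr z2.2) then 0 else
          EE h z1 x1 * EE h z2 x2)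
        ≤ ∑ z1 ∈ P, ∑ z2 ∈ P, EE h z1 x1 * EE h z2 x2 * ind (BadP h D t x1 x2) := by
          apply sum_le_sum
          intro z1 hz1
          apply sum_le_sum
          intro z2 hz2
          have hnn : 0 ≤ EE h z1 x1 * EE h z2 x2 := mul_nonneg (EE_nonneg _ _ _) (EE_nonneg _ _ _)
          split_ifs with hc
          · exact mul_nonneg hnn (ind_nonneg _)
          · by_cases h1 : Cd h z1.1 x1 ∧ Cd h z1.2 x1
            · by_cases h2 : Cd h z2.1 x2 ∧ Cd h z2.2 x2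
              · obtain ⟨p, hp, hp1, hp2⟩ := Nat.Prime.not_coprime_iff_dvd.1 hc
                have key : ∀ z : (Fin K → ℕ) × (Fin K → ℕ), ∀ x : ℕ, Cd h z.1 x ∧ Cd h z.2 x →
                    p ∣ Pr z.1 * Pr z.2 → ∃ i, (p : ℤ) ∣ x + h i := by
                  intro z x hz hpz
                  rcases (hp.dvd_mul).1 hpz with h3 | h3
                  · obtain ⟨j, -, hj⟩ := (Prime.dvd_finsetProd_iff hp.prime _).1 h3
                    exact ⟨j, (Int.natCast_dvd_natCast.2 hj).trans (hz.1 j)⟩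
                  · obtain ⟨j, -, hj⟩ := (Prime.dvd_finsetProd_iff hp.prime _).1 h3
                    exact ⟨j, (Int.natCast_dvd_natCast.2 hj).trans (hz.2 j)⟩
                have hbad : BadP h D t x1 x2 := by
                  refine ⟨p, hp, hP.pr z1 hz1 p hp hp1, ?_, key z1 x1 h1 hp1, key z2 x2 h2 hp2⟩
                  intro hpt
                  exact Nat.Prime.not_coprime_iff_dvd.2 ⟨p, hp, hpt, hp1⟩ (ht z1 hz1)
                rw [ind_pos hbad, mul_one]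
              · unfold EE
                rw [ind_neg h2]
                simp
            · unfold EE
              rw [ind_neg h1]
              simp
      _ = (∑ z1 ∈ P, EE h z1 x1) * (∑ z2 ∈ P, EE h z2 x2) * ind (BadP h D t x1 x2) := by
          rw [sum_mul_sum, sum_mul]
          apply sum_congr rfl
          intro z1 _
          rw [sum_mul]
      _ ≤ Gd h x1 ^ 2 * Gd h x2 ^ 2 * ind (BadP h D t x1 x2) := by
          apply mul_le_mul_of_nonneg_right _ (ind_nonneg _)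
          exact mul_le_mul (card_pairs hx1 P) (card_pairs hx2 P)
            (sum_nonneg fun _ _ => ind_nonneg _) (by positivity)
  have s2 : ∑ z1 ∈ P, ∑ z2 ∈ P, (EE h z1 x1 + FF z1) *
      (if (Pr z1.1 * Pr z1.2).Coprime (Pr z2.1 * Pr z2.2) then 0 else FF z2) ≤
      (Gd h x1 ^ 2 + Ph K Z) * κ0 := by
    calc ∑ z1 ∈ P, ∑ z2 ∈ P, (EE h z1 x1 + FF z1) *
          (if (Pr z1.1 * Pr z1.2).Coprime (Pr z2.1 * Pr z2.2) then 0 else FF z2)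
        ≤ ∑ z1 ∈ P, (EE h z1 x1 + FF z1) * κ0 := by
          apply sum_le_sum
          intro z1 hz1
          rw [← mul_sum]
          exact mul_le_mul_of_nonneg_left (sum_FF_common hD hP hz1)
            (add_nonneg (EE_nonneg _ _ _) (FF_nonneg _))
      _ = (∑ z1 ∈ P, (EE h z1 x1 + FF z1)) * κ0 := by rw [sum_mul]
      _ ≤ _ := mul_le_mul_of_nonneg_right (sum_EF hx1 hP) hκ0'
  have s3 : ∑ z1 ∈ P, ∑ z2 ∈ P, EE h z2 x2 *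
      (if (Pr z2.1 * Pr z2.2).Coprime (Pr z1.1 * Pr z1.2) then 0 else FF z1) ≤
      Gd h x2 ^ 2 * κ0 := by
    rw [sum_comm]
    calc ∑ z2 ∈ P, ∑ z1 ∈ P, EE h z2 x2 *
          (if (Pr z2.1 * Pr z2.2).Coprime (Pr z1.1 * Pr z1.2) then 0 else FF z1)
        ≤ ∑ z2 ∈ P, EE h z2 x2 * κ0 := by
          apply sum_le_sum
          intro z2 hz2
          rw [← mul_sum]
          exact mul_le_mul_of_nonneg_left (sum_FF_common hD hP hz2) (EE_nonneg _ _ _)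
      _ = (∑ z2 ∈ P, EE h z2 x2) * κ0 := by rw [sum_mul]
      _ ≤ _ := mul_le_mul_of_nonneg_right (card_pairs hx2 P) hκ0'
  have hκ : 3 * (Ph K Z * κ0) ≤ kap K Z D := by
    unfold kap
    rw [hκ0]
    have h1 := S0_pow_le (K := K) Z
    calc 3 * (Ph K Z * (16 * K ^ 2 * Real.log Z * S0 Z ^ (2 * K) / D))
        ≤ 3 * (Ph K Z * (16 * K ^ 2 * Real.log Z * Ph K Z / D)) := by gcongr
      _ = _ := by ring
  have hA : 1 ≤ Gd h x1 ^ 2 := one_le_pow₀ hG1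
  have hB : 1 ≤ Gd h x2 ^ 2 := one_le_pow₀ hG2
  have hAB : 1 ≤ Gd h x1 ^ 2 * Gd h x2 ^ 2 := by nlinarith
  have h1 : Gd h x1 ^ 2 + Ph K Z + Gd h x2 ^ 2 ≤ 3 * (Gd h x1 ^ 2 * Gd h x2 ^ 2 * Ph K Z) := by
    have g1 : Gd h x1 ^ 2 ≤ Gd h x1 ^ 2 * Gd h x2 ^ 2 * Ph K Z := by
      calc Gd h x1 ^ 2 = Gd h x1 ^ 2 * 1 * 1 := by ring
        _ ≤ _ := by gcongr
    have g2 : Gd h x2 ^ 2 ≤ Gd h x1 ^ 2 * Gd h x2 ^ 2 * Ph K Z := by
      calc Gd h x2 ^ 2 = 1 * Gd h x2 ^ 2 * 1 := by ring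
        _ ≤ _ := by gcongr
    have g3 : Ph K Z ≤ Gd h x1 ^ 2 * Gd h x2 ^ 2 * Ph K Z :=
      le_mul_of_one_le_left (by linarith) hAB
    linarith
  have h2 : (Gd h x1 ^ 2 + Ph K Z) * κ0 + Gd h x2 ^ 2 * κ0 ≤
      Gd h x1 ^ 2 * Gd h x2 ^ 2 * kap K Z D := by
    calc (Gd h x1 ^ 2 + Ph K Z) * κ0 + Gd h x2 ^ 2 * κ0
        = (Gd h x1 ^ 2 + Ph K Z + Gd h x2 ^ 2) * κ0 := by ring
      _ ≤ (3 * (Gd h x1 ^ 2 * Gd h x2 ^ 2 * Ph K Z)) * κ0 := mul_le_mul_of_nonneg_right h1 hκ0'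
      _ = Gd h x1 ^ 2 * Gd h x2 ^ 2 * (3 * (Ph K Z * κ0)) := by ring
      _ ≤ _ := mul_le_mul_of_nonneg_left hκ (by linarith)
  calc _ ≤ Gd h x1 ^ 2 * Gd h x2 ^ 2 * ind (BadP h D t x1 x2) +
        ((Gd h x1 ^ 2 + Ph K Z) * κ0 + Gd h x2 ^ 2 * κ0) := add_le_add s1 (add_le_add s2 s3)
    _ ≤ Gd h x1 ^ 2 * Gd h x2 ^ 2 * ind (BadP h D t x1 x2) +
        Gd h x1 ^ 2 * Gd h x2 ^ 2 * kap K Z D := by linarith
    _ = _ := by ring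

/-! ### the difference -/

section

variable (h : Fin K → ℤ) (W b M N : ℕ) (SU SV : Finset (Fin K → ℕ)) (a r : Fin K → ℕ)
  (cc : (Fin K → ℕ) → (Fin K → ℕ) → ℝ) (β : ℕ → ℝ)

/-- the inner sum over the pairs of tuples -/
noncomputable def Ti (m n1 n2 : ℕ) : ℝ :=
  ∑ z1 ∈ SU ×ˢ SV, ∑ z2 ∈ SU ×ˢ SV, cc z1.1 z1.2 * cc z2.1 z2.2 *
    ((ind (Lc h W b a r (m * n1)) * ind (Lc h W b a r (m * n2)) -
      ind ((Pr z1.1 * Pr z1.2).Coprime (Pr z2.1 * Pr z2.2)) *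
        ind (n1 ≠ n2 ∧ n1 ≡ n2 [MOD (W * Pr a * Pr r)]) * ind (Lc h W b a r (m * n1))) *
      (Du h z1.1 z1.2 (m * n1) * Du h z2.1 z2.2 (m * n2)))

theorem diff_eq : ∑ m ∈ Ioc M (2 * M), (∑ u ∈ SU, ∑ v ∈ SV, ∑ n ∈ Ioc N (2 * N),
      cc u v * β n * ind (Lc h W b a r (m * n)) * Du h u v (m * n)) ^ 2 -
    ∑ u1 ∈ SU, ∑ v1 ∈ SV, ∑ u2 ∈ SU, ∑ v2 ∈ SV,
      ind ((Pr u1 * Pr v1).Coprime (Pr u2 * Pr v2)) * (cc u1 v1 * cc u2 v2 *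
      ∑ n1 ∈ Ioc N (2 * N), ∑ n2 ∈ Ioc N (2 * N),
        ind (n1 ≠ n2 ∧ n1 ≡ n2 [MOD (W * Pr a * Pr r)]) * (β n1 * β n2 *
          ∑ m ∈ Ioc M (2 * M), ind (Lc h W b a r (m * n1)) * Du h u1 v1 (m * n1) *
            Du h u2 v2 (m * n2))) =
    ∑ m ∈ Ioc M (2 * M), ∑ n1 ∈ Ioc N (2 * N), ∑ n2 ∈ Ioc N (2 * N), β n1 * β n2 *
      Ti h W b SU SV a r cc m n1 n2 := by
  have h1 : ∀ m, (∑ u ∈ SU, ∑ v ∈ SV, ∑ n ∈ Ioc N (2 * N),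
      cc u v * β n * ind (Lc h W b a r (m * n)) * Du h u v (m * n)) ^ 2 =
      ∑ n1 ∈ Ioc N (2 * N), ∑ n2 ∈ Ioc N (2 * N), ∑ z1 ∈ SU ×ˢ SV, ∑ z2 ∈ SU ×ˢ SV,
        β n1 * β n2 * (cc z1.1 z1.2 * cc z2.1 z2.2 *
          (ind (Lc h W b a r (m * n1)) * ind (Lc h W b a r (m * n2)) *
          (Du h z1.1 z1.2 (m * n1) * Du h z2.1 z2.2 (m * n2)))) := by
    intro m
    have e1 : ∑ u ∈ SU, ∑ v ∈ SV, ∑ n ∈ Ioc N (2 * N),
        cc u v * β n * ind (Lc h W b a r (m * n)) * Du h u v (m * n) =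
        ∑ n ∈ Ioc N (2 * N), ∑ z ∈ SU ×ˢ SV,
          cc z.1 z.2 * β n * ind (Lc h W b a r (m * n)) * Du h z.1 z.2 (m * n) := by
      rw [← sum_product' SU SV (fun u v => ∑ n ∈ Ioc N (2 * N),
        cc u v * β n * ind (Lc h W b a r (m * n)) * Du h u v (m * n)), sum_comm]
    rw [e1, sq, sum_mul_sum]
    apply sum_congr rfl
    intro n1 _
    apply sum_congr rfl
    intro n2 _
    rw [sum_mul_sum]
    apply sum_congr rfl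
    intro z1 _
    apply sum_congr rfl
    intro z2 _
    ring
  have h2 : ∑ u1 ∈ SU, ∑ v1 ∈ SV, ∑ u2 ∈ SU, ∑ v2 ∈ SV,
      ind ((Pr u1 * Pr v1).Coprime (Pr u2 * Pr v2)) * (cc u1 v1 * cc u2 v2 *
      ∑ n1 ∈ Ioc N (2 * N), ∑ n2 ∈ Ioc N (2 * N),
        ind (n1 ≠ n2 ∧ n1 ≡ n2 [MOD (W * Pr a * Pr r)]) * (β n1 * β n2 *
          ∑ m ∈ Ioc M (2 * M), ind (Lc h W b a r (m * n1)) * Du h u1 v1 (m * n1) *
            Du h u2 v2 (m * n2))) =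
      ∑ m ∈ Ioc M (2 * M), ∑ n1 ∈ Ioc N (2 * N), ∑ n2 ∈ Ioc N (2 * N), ∑ z1 ∈ SU ×ˢ SV,
        ∑ z2 ∈ SU ×ˢ SV, β n1 * β n2 * (cc z1.1 z1.2 * cc z2.1 z2.2 *
          (ind ((Pr z1.1 * Pr z1.2).Coprime (Pr z2.1 * Pr z2.2)) *
            ind (n1 ≠ n2 ∧ n1 ≡ n2 [MOD (W * Pr a * Pr r)]) * ind (Lc h W b a r (m * n1)) *
          (Du h z1.1 z1.2 (m * n1) * Du h z2.1 z2.2 (m * n2)))) := by
    have e2 : ∀ u1 v1, ∑ u2 ∈ SU, ∑ v2 ∈ SV,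
        ind ((Pr u1 * Pr v1).Coprime (Pr u2 * Pr v2)) * (cc u1 v1 * cc u2 v2 *
        ∑ n1 ∈ Ioc N (2 * N), ∑ n2 ∈ Ioc N (2 * N),
          ind (n1 ≠ n2 ∧ n1 ≡ n2 [MOD (W * Pr a * Pr r)]) * (β n1 * β n2 *
            ∑ m ∈ Ioc M (2 * M), ind (Lc h W b a r (m * n1)) * Du h u1 v1 (m * n1) *
              Du h u2 v2 (m * n2))) =
        ∑ z2 ∈ SU ×ˢ SV, ind ((Pr u1 * Pr v1).Coprime (Pr z2.1 * Pr z2.2)) *
          (cc u1 v1 * cc z2.1 z2.2 *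
        ∑ n1 ∈ Ioc N (2 * N), ∑ n2 ∈ Ioc N (2 * N),
          ind (n1 ≠ n2 ∧ n1 ≡ n2 [MOD (W * Pr a * Pr r)]) * (β n1 * β n2 *
            ∑ m ∈ Ioc M (2 * M), ind (Lc h W b a r (m * n1)) * Du h u1 v1 (m * n1) *
              Du h z2.1 z2.2 (m * n2))) := by
      intro u1 v1
      rw [← sum_product' SU SV (fun u2 v2 =>
        ind ((Pr u1 * Pr v1).Coprime (Pr u2 * Pr v2)) * (cc u1 v1 * cc u2 v2 *
        ∑ n1 ∈ Ioc N (2 * N), ∑ n2 ∈ Ioc N (2 * N),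
          ind (n1 ≠ n2 ∧ n1 ≡ n2 [MOD (W * Pr a * Pr r)]) * (β n1 * β n2 *
            ∑ m ∈ Ioc M (2 * M), ind (Lc h W b a r (m * n1)) * Du h u1 v1 (m * n1) *
              Du h u2 v2 (m * n2))))]
    simp only [e2]
    rw [← sum_product' SU SV (fun u1 v1 => ∑ z2 ∈ SU ×ˢ SV,
        ind ((Pr u1 * Pr v1).Coprime (Pr z2.1 * Pr z2.2)) *
          (cc u1 v1 * cc z2.1 z2.2 *
        ∑ n1 ∈ Ioc N (2 * N), ∑ n2 ∈ Ioc N (2 * N),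
          ind (n1 ≠ n2 ∧ n1 ≡ n2 [MOD (W * Pr a * Pr r)]) * (β n1 * β n2 *
            ∑ m ∈ Ioc M (2 * M), ind (Lc h W b a r (m * n1)) * Du h u1 v1 (m * n1) *
              Du h z2.1 z2.2 (m * n2))))]
    -- push everything inside
    have e3 : ∀ z1 z2 : (Fin K → ℕ) × (Fin K → ℕ),
        ind ((Pr z1.1 * Pr z1.2).Coprime (Pr z2.1 * Pr z2.2)) * (cc z1.1 z1.2 * cc z2.1 z2.2 *
        ∑ n1 ∈ Ioc N (2 * N), ∑ n2 ∈ Ioc N (2 * N),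
          ind (n1 ≠ n2 ∧ n1 ≡ n2 [MOD (W * Pr a * Pr r)]) * (β n1 * β n2 *
            ∑ m ∈ Ioc M (2 * M), ind (Lc h W b a r (m * n1)) * Du h z1.1 z1.2 (m * n1) *
              Du h z2.1 z2.2 (m * n2))) =
        ∑ n1 ∈ Ioc N (2 * N), ∑ n2 ∈ Ioc N (2 * N), ∑ m ∈ Ioc M (2 * M),
          β n1 * β n2 * (cc z1.1 z1.2 * cc z2.1 z2.2 *
          (ind ((Pr z1.1 * Pr z1.2).Coprime (Pr z2.1 * Pr z2.2)) *
            ind (n1 ≠ n2 ∧ n1 ≡ n2 [MOD (W * Pr a * Pr r)]) * ind (Lc h W b a r (m * n1)) *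
          (Du h z1.1 z1.2 (m * n1) * Du h z2.1 z2.2 (m * n2)))) := by
      intro z1 z2
      simp only [mul_sum]
      apply sum_congr rfl
      intro n1 _
      apply sum_congr rfl
      intro n2 _
      apply sum_congr rfl
      intro m _
      ring
    simp only [e3]
    -- compress the indices
    set H : ((Fin K → ℕ) × (Fin K → ℕ)) → ((Fin K → ℕ) × (Fin K → ℕ)) → ℕ → ℕ → ℕ → ℝ :=
      fun z1 z2 n1 n2 m => β n1 * β n2 * (cc z1.1 z1.2 * cc z2.1 z2.2 *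
          (ind ((Pr z1.1 * Pr z1.2).Coprime (Pr z2.1 * Pr z2.2)) *
            ind (n1 ≠ n2 ∧ n1 ≡ n2 [MOD (W * Pr a * Pr r)]) * ind (Lc h W b a r (m * n1)) *
          (Du h z1.1 z1.2 (m * n1) * Du h z2.1 z2.2 (m * n2)))) with hH
    have g1 : ∑ z1 ∈ SU ×ˢ SV, ∑ z2 ∈ SU ×ˢ SV, ∑ n1 ∈ Ioc N (2 * N), ∑ n2 ∈ Ioc N (2 * N),
        ∑ m ∈ Ioc M (2 * M), H z1 z2 n1 n2 m =
        ∑ z ∈ (SU ×ˢ SV) ×ˢ (SU ×ˢ SV), ∑ n ∈ Ioc N (2 * N) ×ˢ Ioc N (2 * N),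
          ∑ m ∈ Ioc M (2 * M), H z.1 z.2 n.1 n.2 m := by
      rw [sum_product (SU ×ˢ SV) (SU ×ˢ SV)]
      apply sum_congr rfl
      intro z1 _
      apply sum_congr rfl
      intro z2 _
      rw [sum_product (Ioc N (2 * N)) (Ioc N (2 * N))]
    have g2 : ∑ m ∈ Ioc M (2 * M), ∑ n1 ∈ Ioc N (2 * N), ∑ n2 ∈ Ioc N (2 * N),
        ∑ z1 ∈ SU ×ˢ SV, ∑ z2 ∈ SU ×ˢ SV, H z1 z2 n1 n2 m =
        ∑ m ∈ Ioc M (2 * M), ∑ n ∈ Ioc N (2 * N) ×ˢ Ioc N (2 * N),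
          ∑ z ∈ (SU ×ˢ SV) ×ˢ (SU ×ˢ SV), H z.1 z.2 n.1 n.2 m := by
      apply sum_congr rfl
      intro m _
      rw [sum_product (Ioc N (2 * N)) (Ioc N (2 * N))]
      apply sum_congr rfl
      intro n1 _
      apply sum_congr rfl
      intro n2 _
      rw [sum_product (SU ×ˢ SV) (SU ×ˢ SV)]
    refine g1.trans (Eq.trans ?_ g2.symm)
    rw [sum_comm]
    have g3 : ∑ n ∈ Ioc N (2 * N) ×ˢ Ioc N (2 * N), ∑ z ∈ (SU ×ˢ SV) ×ˢ (SU ×ˢ SV),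
        ∑ m ∈ Ioc M (2 * M), H z.1 z.2 n.1 n.2 m =
        ∑ n ∈ Ioc N (2 * N) ×ˢ Ioc N (2 * N), ∑ m ∈ Ioc M (2 * M),
          ∑ z ∈ (SU ×ˢ SV) ×ˢ (SU ×ˢ SV), H z.1 z.2 n.1 n.2 m :=
      sum_congr rfl fun n _ => sum_comm
    rw [g3, sum_comm]
  rw [h2]
  simp only [h1]
  rw [← sum_sub_distrib]
  apply sum_congr rfl
  intro m _
  rw [← sum_sub_distrib]
  apply sum_congr rfl
  intro n1 _
  rw [← sum_sub_distrib]
  apply sum_congr rfl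
  intro n2 _
  rw [← sum_sub_distrib]
  unfold Ti
  rw [mul_sum]
  apply sum_congr rfl
  intro z1 _
  rw [← sum_sub_distrib, mul_sum]
  apply sum_congr rfl
  intro z2 _
  ring

end

end Pool.Agent.Y474.TRIV
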