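import Pool.Agent.Y474.TRIV.C

/-!
Project Y826/Z, TRIV: the inner sums.
-/

set_option autoImplicit false

namespace Pool.Agent.Y474.TRIV

open Finset Filter
open Pool.Agent.Y826.Z

variable {K : ℕ}

theorem dvd_Pr (u : Fin K → ℕ) (j : Fin K) : u j ∣ Pr u := dvd_prod_of_mem _ (mem_univ j)

theorem Lc_of_modEq {h : Fin K → ℤ} {W b : ℕ} {a r : Fin K → ℕ} {m n1 n2 : ℕ}
    (h1 : Lc h W b a r (m * n1)) (hm : n1 ≡ n2 [MOD (W * Pr a * Pr r)]) :
    Lc h W b a r (m * n2) := by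
  have h2 : m * n1 ≡ m * n2 [MOD (W * Pr a * Pr r)] := hm.mul_left m
  have h3 : ((W * Pr a * Pr r : ℕ) : ℤ) ∣ ((m * n2 : ℕ) : ℤ) - ((m * n1 : ℕ) : ℤ) :=
    Nat.modEq_iff_dvd.1 h2
  refine ⟨?_, ?_, ?_⟩
  · have h4 : m * n1 ≡ m * n2 [MOD W] := h2.of_dvd ((Dvd.intro _ rfl).trans (Dvd.intro _ rfl))
    exact h4.symm.trans h1.1
  · intro j
    have h5 : (a j : ℤ) ∣ ((m * n2 : ℕ) : ℤ) - ((m * n1 : ℕ) : ℤ) := by
      refine (Int.natCast_dvd_natCast.2 ?_).trans h3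
      exact (dvd_Pr a j).trans ((Dvd.intro_left _ rfl).trans (Dvd.intro _ rfl))
    have h6 := dvd_add h5 (h1.2.1 j)
    have e : ((m * n2 : ℕ) : ℤ) - ((m * n1 : ℕ) : ℤ) + (((m * n1 : ℕ) : ℤ) + h j) =
      ((m * n2 : ℕ) : ℤ) + h j := by ring
    rwa [e] at h6
  · intro j
    have h5 : (r j : ℤ) ∣ ((m * n2 : ℕ) : ℤ) - ((m * n1 : ℕ) : ℤ) := by
      refine (Int.natCast_dvd_natCast.2 ?_).trans h3
      exact (dvd_Pr r j).trans (Dvd.intro_left _ rfl)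
    have h6 := dvd_add h5 (h1.2.2 j)
    have e : ((m * n2 : ℕ) : ℤ) - ((m * n1 : ℕ) : ℤ) + (((m * n1 : ℕ) : ℤ) + h j) =
      ((m * n2 : ℕ) : ℤ) + h j := by ring
    rwa [e] at h6

theorem Lc_modEq {h : Fin K → ℤ} {W b : ℕ} (hy : Hyp h W b) {a r : Fin K → ℕ}
    (hsq : Squarefree (W * Pr a * Pr r)) {m n1 n2 : ℕ}
    (h1 : Lc h W b a r (m * n1)) (h2 : Lc h W b a r (m * n2)) :
    n1 ≡ n2 [MOD (W * Pr a * Pr r)] := by
  have hdvd : W * Pr a * Pr r ∣ ((n2 : ℤ) - n1).natAbs := by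
    rw [← Nat.prod_primeFactors_of_squarefree hsq]
    apply Finset.prod_primes_dvd
    · intro p hp
      exact (Nat.prime_of_mem_primeFactors hp).prime
    · intro p hp
      have hpp := Nat.prime_of_mem_primeFactors hp
      have hpt := Nat.dvd_of_mem_primeFactors hp
      have key : ¬ p ∣ m → (p : ℤ) ∣ ((m * n2 : ℕ) : ℤ) - ((m * n1 : ℕ) : ℤ) →
          p ∣ ((n2 : ℤ) - n1).natAbs := by
        intro hpm hd
        have e : ((m * n2 : ℕ) : ℤ) - ((m * n1 : ℕ) : ℤ) = (m : ℤ) * ((n2 : ℤ) - n1) := by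
          push_cast; ring
        rw [e] at hd
        rcases (Nat.prime_iff_prime_int.1 hpp).dvd_or_dvd hd with h3 | h3
        · exact absurd (Int.natCast_dvd_natCast.1 h3) hpm
        · exact Int.natCast_dvd.1 h3
      have key2 : ∀ (y : Fin K → ℕ), ¬ p ∣ W → p ∣ Pr y → Cd h y (m * n1) → Cd h y (m * n2) →
          p ∣ ((n2 : ℤ) - n1).natAbs := by
        intro y hpW hpy hy1 hy2
        obtain ⟨j, -, hj⟩ := (Prime.dvd_finsetProd_iff hpp.prime _).1 hpy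
        have d1 : (p : ℤ) ∣ ((m * n1 : ℕ) : ℤ) + h j := (Int.natCast_dvd_natCast.2 hj).trans (hy1 j)
        have d2 : (p : ℤ) ∣ ((m * n2 : ℕ) : ℤ) + h j := (Int.natCast_dvd_natCast.2 hj).trans (hy2 j)
        apply key
        · intro hc
          apply hy.h1 p hpp hpW j
          have h5 : (p : ℤ) ∣ ((m * n1 : ℕ) : ℤ) := by exact_mod_cast hc.trans (Dvd.intro _ rfl)
          exact (Int.dvd_iff_dvd_of_dvd_add d1).1 h5
        · have := dvd_sub d2 d1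
          have e : ((m * n2 : ℕ) : ℤ) + h j - (((m * n1 : ℕ) : ℤ) + h j) =
            ((m * n2 : ℕ) : ℤ) - ((m * n1 : ℕ) : ℤ) := by ring
          rwa [e] at this
      have hpW' : p ∣ Pr a * Pr r → ¬ p ∣ W := by
        intro h3 h4
        have h5 : p * p ∣ W * Pr a * Pr r := by
          rw [mul_assoc]
          exact mul_dvd_mul h4 h3
        exact hpp.one_lt.ne' (Nat.isUnit_iff.1 (hsq p h5))
      rw [mul_assoc] at hpt
      rcases (hpp.dvd_mul).1 hpt with h3 | h3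
      · apply key
        · intro hc
          have h4 : p ∣ b := by
            have h5 : m * n1 ≡ b [MOD p] := h1.1.of_dvd h3
            exact (Nat.ModEq.dvd_iff h5 (dvd_refl p)).1 (hc.trans (Dvd.intro _ rfl))
          have h6 := Nat.dvd_gcd h4 h3
          rw [hy.bW] at h6
          exact hpp.one_lt.ne' (Nat.dvd_one.1 h6)
        · have h7 : m * n1 ≡ m * n2 [MOD W] := h1.1.trans h2.1.symm
          exact (Int.natCast_dvd_natCast.2 h3).trans (Nat.modEq_iff_dvd.1 h7)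
      · rcases (hpp.dvd_mul).1 h3 with h4 | h4
        · exact key2 a (hpW' h3) h4 h1.2.1 h2.2.1
        · exact key2 r (hpW' h3) h4 h1.2.2 h2.2.2
  exact Nat.modEq_iff_dvd.2 (Int.natCast_dvd.2 hdvd)

section

variable (h : Fin K → ℤ) (W b N : ℕ) (SU SV : Finset (Fin K → ℕ)) (a r : Fin K → ℕ)
  (cc : (Fin K → ℕ) → (Fin K → ℕ) → ℝ) (β : ℕ → ℝ)

open Classical in
/-- the pairs with nonzero coefficient -/
noncomputable def PP : Finset ((Fin K → ℕ) × (Fin K → ℕ)) :=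
  (SU ×ˢ SV).filter (fun z => cc z.1 z.2 ≠ 0)

variable {h W b SU SV a r cc}

open Classical in
theorem Ti_bound (hy : Hyp h W b) {Z D : ℕ} (hD : 0 < D) (hP : OKP Z D (PP SU SV cc))
    (hc1 : ∀ u v, |cc u v| ≤ 1)
    (hcs : ∀ u v, cc u v ≠ 0 → Squarefree (W * Pr a * Pr r * Pr u * Pr v)) {m n1 n2 : ℕ}
    (hx1 : Good h (m * n1)) (hx2 : Good h (m * n2)) :
    |Ti h W b SU SV a r cc m n1 n2| ≤
      ind (Lc h W b a r (m * n1)) * ind (Lc h W b a r (m * n2)) *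
      (ind (n1 = n2) * ((Gd h (m * n1) ^ 2 + Ph K Z) * (Gd h (m * n2) ^ 2 + Ph K Z)) +
        ind (n1 ≠ n2 ∧ n1 ≡ n2 [MOD (W * Pr a * Pr r)]) *
          (Gd h (m * n1) ^ 2 * Gd h (m * n2) ^ 2 *
            (ind (BadP h D (W * Pr a * Pr r) (m * n1) (m * n2)) + kap K Z D))) := by
  set t := W * Pr a * Pr r with ht
  set x1 := m * n1 with hx1'
  set x2 := m * n2 with hx2'
  set P := PP SU SV cc with hPdef
  set l1 := ind (Lc h W b a r x1) with hl1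
  set l2 := ind (Lc h W b a r x2) with hl2
  have hl10 : 0 ≤ l1 := ind_nonneg _
  have hl20 : 0 ≤ l2 := ind_nonneg _
  have hmemP : ∀ z, z ∈ P ↔ z ∈ SU ×ˢ SV ∧ cc z.1 z.2 ≠ 0 := by
    intro z
    rw [hPdef]
    unfold PP
    rw [mem_filter]
  have hsqP : ∀ z ∈ P, Squarefree (t * (Pr z.1 * Pr z.2)) := by
    intro z hz
    have := hcs z.1 z.2 ((hmemP z).1 hz).2
    rwa [mul_assoc (W * Pr a * Pr r)] at this
  -- restriction to P
  have hT : Ti h W b SU SV a r cc m n1 n2 = ∑ z1 ∈ P, ∑ z2 ∈ P, cc z1.1 z1.2 * cc z2.1 z2.2 *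
      ((l1 * l2 - ind ((Pr z1.1 * Pr z1.2).Coprime (Pr z2.1 * Pr z2.2)) *
        ind (n1 ≠ n2 ∧ n1 ≡ n2 [MOD t]) * l1) *
      (Du h z1.1 z1.2 x1 * Du h z2.1 z2.2 x2)) := by
    have hsub : P ⊆ SU ×ˢ SV := fun z hz => ((hmemP z).1 hz).1
    unfold Ti
    have hzero : ∀ z ∈ SU ×ˢ SV, z ∉ P → cc z.1 z.2 = 0 := by
      intro z hz hzP
      by_contra hne
      exact hzP ((hmemP z).2 ⟨hz, hne⟩)
    rw [← sum_subset hsub]
    · apply sum_congr rfl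
      intro z1 _
      rw [← sum_subset hsub]
      intro z2 hz2 hz2P
      rw [hzero z2 hz2 hz2P]
      ring
    · intro z1 hz1 hz1P
      apply sum_eq_zero
      intro z2 _
      rw [hzero z1 hz1 hz1P]
      ring
  rw [hT]
  have hpt : ∀ z1 ∈ P, ∀ z2 ∈ P, |cc z1.1 z1.2 * cc z2.1 z2.2 *
      ((l1 * l2 - ind ((Pr z1.1 * Pr z1.2).Coprime (Pr z2.1 * Pr z2.2)) *
        ind (n1 ≠ n2 ∧ n1 ≡ n2 [MOD t]) * l1) *
      (Du h z1.1 z1.2 x1 * Du h z2.1 z2.2 x2))| ≤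
      l1 * l2 * (ind (n1 = n2) * ((EE h z1 x1 + FF z1) * (EE h z2 x2 + FF z2)) +
        ind (n1 ≠ n2 ∧ n1 ≡ n2 [MOD t]) *
        (if (Pr z1.1 * Pr z1.2).Coprime (Pr z2.1 * Pr z2.2) then 0 else
          (EE h z1 x1 + FF z1) * (EE h z2 x2 + FF z2))) := by
    intro z1 hz1 z2 hz2
    have hsqt : Squarefree t := (hsqP z1 hz1).of_mul_left
    have hg1 : 0 ≤ EE h z1 x1 + FF z1 := add_nonneg (EE_nonneg _ _ _) (FF_nonneg _)
    have hg2 : 0 ≤ EE h z2 x2 + FF z2 := add_nonneg (EE_nonneg _ _ _) (FF_nonneg _)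
    have hid : l1 * l2 - ind ((Pr z1.1 * Pr z1.2).Coprime (Pr z2.1 * Pr z2.2)) *
        ind (n1 ≠ n2 ∧ n1 ≡ n2 [MOD t]) * l1 =
        l1 * l2 * (ind (n1 = n2) + ind (n1 ≠ n2 ∧ n1 ≡ n2 [MOD t]) *
          (if (Pr z1.1 * Pr z1.2).Coprime (Pr z2.1 * Pr z2.2) then 0 else 1)) := by
      by_cases h1 : Lc h W b a r x1
      · by_cases h2 : Lc h W b a r x2
        · have hmod := Lc_modEq hy hsqt h1 h2
          rw [hl1, hl2, ind_pos h1, ind_pos h2]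
          by_cases hn : n1 = n2
          · rw [ind_pos hn, ind_neg (P := n1 ≠ n2 ∧ n1 ≡ n2 [MOD t]) (fun hc => hc.1 hn)]
            ring
          · rw [ind_neg hn, ind_pos (P := n1 ≠ n2 ∧ n1 ≡ n2 [MOD t]) ⟨hn, hmod⟩]
            by_cases hcop : (Pr z1.1 * Pr z1.2).Coprime (Pr z2.1 * Pr z2.2)
            · rw [ind_pos hcop, if_pos hcop]
              ring
            · rw [ind_neg hcop, if_neg hcop]
              ring
        · have hnot : ¬ (n1 ≠ n2 ∧ n1 ≡ n2 [MOD t]) := fun hc => h2 (Lc_of_modEq h1 hc.2)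
          rw [hl2, ind_neg h2, ind_neg hnot]
          ring
      · rw [hl1, ind_neg h1]
        ring
    rw [hid, abs_mul, abs_mul, abs_mul]
    have hB0 : 0 ≤ ind (n1 = n2) + ind (n1 ≠ n2 ∧ n1 ≡ n2 [MOD t]) *
          (if (Pr z1.1 * Pr z1.2).Coprime (Pr z2.1 * Pr z2.2) then (0 : ℝ) else 1) := by
      have g1 := ind_nonneg (n1 = n2)
      have g2 := ind_nonneg (n1 ≠ n2 ∧ n1 ≡ n2 [MOD t])
      split_ifs <;> positivity
    rw [abs_of_nonneg (mul_nonneg (mul_nonneg hl10 hl20) hB0), abs_mul]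
    have hcc : |cc z1.1 z1.2| * |cc z2.1 z2.2| ≤ 1 :=
      mul_le_one₀ (hc1 _ _) (abs_nonneg _) (hc1 _ _)
    have hDD : |Du h z1.1 z1.2 x1| * |Du h z2.1 z2.2 x2| ≤
        (EE h z1 x1 + FF z1) * (EE h z2 x2 + FF z2) :=
      mul_le_mul (Du_le h z1 x1) (Du_le h z2 x2) (abs_nonneg _) hg1
    calc |cc z1.1 z1.2| * |cc z2.1 z2.2| * (l1 * l2 * (ind (n1 = n2) +
          ind (n1 ≠ n2 ∧ n1 ≡ n2 [MOD t]) *
          (if (Pr z1.1 * Pr z1.2).Coprime (Pr z2.1 * Pr z2.2) then (0 : ℝ) else 1)) *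
          (|Du h z1.1 z1.2 x1| * |Du h z2.1 z2.2 x2|))
        ≤ 1 * (l1 * l2 * (ind (n1 = n2) +
          ind (n1 ≠ n2 ∧ n1 ≡ n2 [MOD t]) *
          (if (Pr z1.1 * Pr z1.2).Coprime (Pr z2.1 * Pr z2.2) then (0 : ℝ) else 1)) *
          ((EE h z1 x1 + FF z1) * (EE h z2 x2 + FF z2))) := by
          apply mul_le_mul hcc _ (by positivity) zero_le_one
          exact mul_le_mul_of_nonneg_left hDD (mul_nonneg (mul_nonneg hl10 hl20) hB0)
      _ = _ := by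
          split_ifs <;> ring
  refine (abs_sum_le_sum_abs _ _).trans ?_
  refine (sum_le_sum fun z1 hz1 => (abs_sum_le_sum_abs _ _).trans
    (sum_le_sum fun z2 hz2 => hpt z1 hz1 z2 hz2)).trans ?_
  have hfac : ∑ z1 ∈ P, ∑ z2 ∈ P, l1 * l2 * (ind (n1 = n2) *
      ((EE h z1 x1 + FF z1) * (EE h z2 x2 + FF z2)) +
        ind (n1 ≠ n2 ∧ n1 ≡ n2 [MOD t]) *
        (if (Pr z1.1 * Pr z1.2).Coprime (Pr z2.1 * Pr z2.2) then 0 else
          (EE h z1 x1 + FF z1) * (EE h z2 x2 + FF z2))) =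
      l1 * l2 * (ind (n1 = n2) * ((∑ z1 ∈ P, (EE h z1 x1 + FF z1)) *
        ∑ z2 ∈ P, (EE h z2 x2 + FF z2)) +
        ind (n1 ≠ n2 ∧ n1 ≡ n2 [MOD t]) * ∑ z1 ∈ P, ∑ z2 ∈ P,
        (if (Pr z1.1 * Pr z1.2).Coprime (Pr z2.1 * Pr z2.2) then 0 else
          (EE h z1 x1 + FF z1) * (EE h z2 x2 + FF z2))) := by
    rw [sum_mul_sum]
    simp only [mul_sum, mul_add, sum_add_distrib]
  rw [hfac]
  apply mul_le_mul_of_nonneg_left _ (mul_nonneg hl10 hl20)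
  apply add_le_add
  · apply mul_le_mul_of_nonneg_left _ (ind_nonneg _)
    exact mul_le_mul (sum_EF hx1 hP) (sum_EF hx2 hP)
      (sum_nonneg fun z _ => add_nonneg (EE_nonneg _ _ _) (FF_nonneg _))
      (by have := one_le_Ph (K := K) Z; positivity)
  · apply mul_le_mul_of_nonneg_left _ (ind_nonneg _)
    apply R_bound hD hx1 hx2 hP
    intro z hz
    exact (Nat.squarefree_mul_iff.1 (hsqP z hz)).1

end

end Pool.Agent.Y474.TRIV
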