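import Pool.Agent.Y474.TRIV.D

/-!
Project Y826/Z, TRIV: summation over the points.
-/

set_option autoImplicit false

namespace Pool.Agent.Y474.TRIV

open Finset Filter
open Pool.Agent.Y826.Z

variable {K : ℕ}

theorem symm_sum {ι : Type*} (S : Finset ι) (g : ι → ℝ) (ρ : ι → ι → ℝ) (h0 : ∀ x y, 0 ≤ ρ x y)
    (hs : ∀ x y, ρ x y = ρ y x) :
    ∑ x ∈ S, ∑ y ∈ S, g x * g y * ρ x y ≤ ∑ x ∈ S, g x ^ 2 * ∑ y ∈ S, ρ x y := by
  have h1 : ∑ x ∈ S, ∑ y ∈ S, g x * g y * ρ x y ≤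
      ∑ x ∈ S, ∑ y ∈ S, (1 / 2 * (g x ^ 2 * ρ x y) + 1 / 2 * (g y ^ 2 * ρ x y)) := by
    apply sum_le_sum
    intro x _
    apply sum_le_sum
    intro y _
    have := mul_le_mul_of_nonneg_right (two_mul_le_add_sq (g x) (g y)) (h0 x y)
    nlinarith
  refine h1.trans (le_of_eq ?_)
  simp only [sum_add_distrib, ← mul_sum]
  have h2 : ∑ x ∈ S, ∑ y ∈ S, g y ^ 2 * ρ x y = ∑ x ∈ S, g x ^ 2 * ∑ y ∈ S, ρ x y := by
    rw [sum_comm]
    apply sum_congr rfl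
    intro x _
    rw [mul_sum]
    apply sum_congr rfl
    intro y _
    rw [hs]
  rw [h2]
  ring

theorem ind_and (P Q : Prop) : ind P * ind Q = ind (P ∧ Q) := by
  by_cases hP : P
  · by_cases hQ : Q
    · rw [ind_pos hP, ind_pos hQ, ind_pos ⟨hP, hQ⟩, one_mul]
    · rw [ind_neg hQ, ind_neg (fun h : P ∧ Q => hQ h.2), mul_zero]
  · rw [ind_neg hP, ind_neg (fun h : P ∧ Q => hP h.1), zero_mul]

theorem sum_bad {h : Fin K → ℤ} {W b : ℕ} (hy : Hyp h W b) {D t m n1 N : ℕ} (hWt : W ∣ t)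
    (ht : 0 < t) (hD : 0 < D) (hx : Good h (m * n1)) :
    ∑ n2 ∈ Ioc N (2 * N), ind ((n1 ≠ n2 ∧ n1 ≡ n2 [MOD t]) ∧ BadP h D t (m * n1) (m * n2)) ≤
      K ^ 2 * Gd h (m * n1) * (N / (t * D) + 1) := by
  classical
  rw [sum_ind]
  convert card_bad (N := N) hy hWt ht hD hx

theorem sum_other (N t n1 : ℕ) (ht : 0 < t) (hn1 : n1 ∈ Ioc N (2 * N)) :
    ∑ n2 ∈ Ioc N (2 * N), ind (n1 ≠ n2 ∧ n1 ≡ n2 [MOD t]) ≤ N / t := by
  classical
  rw [sum_ind]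
  convert card_other N t n1 ht hn1

section

variable {h : Fin K → ℤ} {W b : ℕ} {SU SV : Finset (Fin K → ℕ)} {a r : Fin K → ℕ}
  {cc : (Fin K → ℕ) → (Fin K → ℕ) → ℝ}

open Classical in
theorem E_bound (hy : Hyp h W b) {Z D : ℕ} (hD : 0 < D) (hP : OKP Z D (PP SU SV cc))
    (hc1 : ∀ u v, |cc u v| ≤ 1)
    (hcs : ∀ u v, cc u v ≠ 0 → Squarefree (W * Pr a * Pr r * Pr u * Pr v))
    (ht : 0 < W * Pr a * Pr r) (β : ℕ → ℝ) {m N : ℕ} (hx : ∀ n ∈ Ioc N (2 * N), Good h (m * n)) :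
    ∑ n1 ∈ Ioc N (2 * N), ∑ n2 ∈ Ioc N (2 * N), |β n1 * β n2 * Ti h W b SU SV a r cc m n1 n2| ≤
      ∑ n ∈ Ioc N (2 * N), β n ^ 2 * ind (Lc h W b a r (m * n)) *
        ((Gd h (m * n) ^ 2 + Ph K Z) ^ 2 + Gd h (m * n) ^ 4 *
          (K ^ 2 * Gd h (m * n) * (N / (((W * Pr a * Pr r : ℕ) : ℝ) * D) + 1) +
            kap K Z D * (N / ((W * Pr a * Pr r : ℕ) : ℝ)))) := by
  set t := W * Pr a * Pr r with ht'
  set l : ℕ → ℝ := fun n => ind (Lc h W b a r (m * n)) with hl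
  have hl0 : ∀ n, 0 ≤ l n := fun n => ind_nonneg _
  have hll : ∀ n, l n * l n = l n := fun n => ind_mul_self _
  set ρ : ℕ → ℕ → ℝ := fun n1 n2 => ind (n1 ≠ n2 ∧ n1 ≡ n2 [MOD t]) *
    (ind (BadP h D t (m * n1) (m * n2)) + kap K Z D) with hρ
  have hρ0 : ∀ x y, 0 ≤ ρ x y := fun x y =>
    mul_nonneg (ind_nonneg _) (add_nonneg (ind_nonneg _) (kap_nonneg _ _))
  have hρs : ∀ x y, ρ x y = ρ y x := by
    intro x y
    simp only [hρ]
    rw [ind_congr (P := x ≠ y ∧ x ≡ y [MOD t]) (Q := y ≠ x ∧ y ≡ x [MOD t])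
      ⟨fun hh => ⟨hh.1.symm, hh.2.symm⟩, fun hh => ⟨hh.1.symm, hh.2.symm⟩⟩,
      ind_congr (P := BadP h D t (m * x) (m * y)) (Q := BadP h D t (m * y) (m * x))
      ⟨BadP_symm, BadP_symm⟩]
  set g : ℕ → ℝ := fun n => |β n| * l n * Gd h (m * n) ^ 2 with hg
  -- pointwise
  have h1 : ∀ n1 ∈ Ioc N (2 * N), ∀ n2 ∈ Ioc N (2 * N),
      |β n1 * β n2 * Ti h W b SU SV a r cc m n1 n2| ≤
      (if n1 = n2 then β n1 ^ 2 * l n1 * (Gd h (m * n1) ^ 2 + Ph K Z) ^ 2 else 0) +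
        g n1 * g n2 * ρ n1 n2 := by
    intro n1 hn1 n2 hn2
    have hT := Ti_bound (m := m) (n1 := n1) (n2 := n2) hy hD hP hc1 hcs (hx n1 hn1) (hx n2 hn2)
    rw [abs_mul, abs_mul]
    refine (mul_le_mul_of_nonneg_left hT (by positivity)).trans (le_of_eq ?_)
    by_cases hn : n1 = n2
    · subst hn
      rw [if_pos rfl, ind_pos (P := n1 = n1) rfl]
      simp only [hg, hρ, hl]
      have e1 := hll n1
      simp only [hl] at e1
      rw [← sq_abs (β n1)]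
      linear_combination (|β n1| ^ 2 * (Gd h (m * n1) ^ 2 + Ph K Z) ^ 2) * e1
    · rw [if_neg hn, ind_neg hn]
      simp only [hg, hρ, hl]
      ring
  refine (sum_le_sum fun n1 hn1 => sum_le_sum fun n2 hn2 => h1 n1 hn1 n2 hn2).trans ?_
  simp only [sum_add_distrib]
  have h2 : ∑ n1 ∈ Ioc N (2 * N), ∑ n2 ∈ Ioc N (2 * N),
      (if n1 = n2 then β n1 ^ 2 * l n1 * (Gd h (m * n1) ^ 2 + Ph K Z) ^ 2 else 0) =
      ∑ n ∈ Ioc N (2 * N), β n ^ 2 * l n * (Gd h (m * n) ^ 2 + Ph K Z) ^ 2 := by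
    apply sum_congr rfl
    intro n1 hn1
    rw [sum_ite_eq, if_pos hn1]
  have h3 := symm_sum (Ioc N (2 * N)) g ρ hρ0 hρs
  have h4 : ∀ n1 ∈ Ioc N (2 * N), ∑ n2 ∈ Ioc N (2 * N), ρ n1 n2 ≤
      K ^ 2 * Gd h (m * n1) * (N / ((t : ℝ) * D) + 1) + kap K Z D * (N / (t : ℝ)) := by
    intro n1 hn1
    have e1 : ∀ n2, ρ n1 n2 = ind ((n1 ≠ n2 ∧ n1 ≡ n2 [MOD t]) ∧ BadP h D t (m * n1) (m * n2)) +
        kap K Z D * ind (n1 ≠ n2 ∧ n1 ≡ n2 [MOD t]) := by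
      intro n2
      simp only [hρ]
      rw [← ind_and (n1 ≠ n2 ∧ n1 ≡ n2 [MOD t])]
      ring
    have hWt : W ∣ t := by
      rw [ht', mul_assoc]
      exact Dvd.intro _ rfl
    have b1 := sum_bad (N := N) hy hWt ht hD (hx n1 hn1)
    have b2 := mul_le_mul_of_nonneg_left (sum_other N t n1 ht hn1) (kap_nonneg (K := K) Z D)
    calc ∑ n2 ∈ Ioc N (2 * N), ρ n1 n2 =
        ∑ n2 ∈ Ioc N (2 * N), ind ((n1 ≠ n2 ∧ n1 ≡ n2 [MOD t]) ∧ BadP h D t (m * n1) (m * n2)) +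
        kap K Z D * ∑ n2 ∈ Ioc N (2 * N), ind (n1 ≠ n2 ∧ n1 ≡ n2 [MOD t]) := by
          rw [mul_sum, ← sum_add_distrib]
          exact sum_congr rfl fun n2 _ => e1 n2
      _ ≤ _ := add_le_add b1 b2
  have h5 : ∑ n1 ∈ Ioc N (2 * N), g n1 ^ 2 * ∑ n2 ∈ Ioc N (2 * N), ρ n1 n2 ≤
      ∑ n ∈ Ioc N (2 * N), β n ^ 2 * l n * (Gd h (m * n) ^ 4 *
        (K ^ 2 * Gd h (m * n) * (N / ((t : ℝ) * D) + 1) + kap K Z D * (N / (t : ℝ)))) := by
    apply sum_le_sum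
    intro n1 hn1
    refine (mul_le_mul_of_nonneg_left (h4 n1 hn1) (sq_nonneg _)).trans (le_of_eq ?_)
    simp only [hg]
    have e1 := hll n1
    rw [← sq_abs (β n1)]
    linear_combination (|β n1| ^ 2 * (Gd h (m * n1) ^ 4 *
        (K ^ 2 * Gd h (m * n1) * (N / ((t : ℝ) * D) + 1) + kap K Z D * (N / (t : ℝ))))) * e1
  rw [h2]
  refine (add_le_add le_rfl (h3.trans h5)).trans (le_of_eq ?_)
  rw [← sum_add_distrib]
  apply sum_congr rfl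
  intro n _
  simp only [hl]
  ring

end

/-- the main bound -/
theorem main_bound {h : Fin K → ℤ} {W b : ℕ} (hy : Hyp h W b) {Z D M N : ℕ} (hD : 0 < D)
    {SA SB SU SV : Finset (Fin K → ℕ)} {th : (Fin K → ℕ) → ℝ}
    {c : (Fin K → ℕ) → (Fin K → ℕ) → (Fin K → ℕ) → (Fin K → ℕ) → ℝ} {RA RB Xe : ℝ}
    (hRA : 0 < RA) (hRB : 0 < RB) (hXe0 : 0 ≤ Xe) (hc1 : ∀ a r u v, |c a r u v| ≤ 1)
    (hcs : ∀ a r u v, c a r u v ≠ 0 → Squarefree (W * Pr a * Pr r * Pr u * Pr v))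
    (hpos : ∀ a ∈ SA, ∀ r ∈ SB, 0 < Pr a * Pr r)
    (hth1 : ∀ a ∈ SA, 0 ≤ th a) (hth2 : ∀ a ∈ SA, th a ≤ Xe)
    (hsar : ∀ a ∈ SA, ∀ r ∈ SB, th a * (RA * RB) ≤ Pr a * Pr r)
    (hP : ∀ a ∈ SA, ∀ r ∈ SB, OKP Z D (PP SU SV (c a r))) (β : ℕ → ℝ)
    (hx : ∀ m ∈ Ioc M (2 * M), ∀ n ∈ Ioc N (2 * N), Good h (m * n)) :
    |SS h W b M N SA SB SU SV th c β - Soff h W b M N SA SB SU SV th c β| ≤
      (Xe * (4 * Ph K Z ^ 2 + K ^ 2) + N / (RA * RB) * (K ^ 2 / D + kap K Z D)) *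
      ∑ m ∈ Ioc M (2 * M), ∑ n ∈ Ioc N (2 * N), β n ^ 2 * Gd h (m * n) ^ 7 := by
  set Cs : ℝ := Xe * (4 * Ph K Z ^ 2 + K ^ 2) + N / (RA * RB) * (K ^ 2 / D + kap K Z D) with hCs
  have hPh := one_le_Ph (K := K) Z
  have hkap := kap_nonneg (K := K) Z D
  have hD' : (0 : ℝ) < D := by exact_mod_cast hD
  have hdiff : SS h W b M N SA SB SU SV th c β - Soff h W b M N SA SB SU SV th c β =
      ∑ a ∈ SA, ∑ r ∈ SB, th a * ∑ m ∈ Ioc M (2 * M), ∑ n1 ∈ Ioc N (2 * N),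
        ∑ n2 ∈ Ioc N (2 * N), β n1 * β n2 * Ti h W b SU SV a r (c a r) m n1 n2 := by
    unfold SS Soff
    rw [← sum_sub_distrib]
    apply sum_congr rfl
    intro a _
    rw [← sum_sub_distrib]
    apply sum_congr rfl
    intro r _
    rw [← mul_sub, diff_eq]
  rw [hdiff]
  -- the estimate for fixed a, r
  have hfix : ∀ a ∈ SA, ∀ r ∈ SB, |th a * ∑ m ∈ Ioc M (2 * M), ∑ n1 ∈ Ioc N (2 * N),
      ∑ n2 ∈ Ioc N (2 * N), β n1 * β n2 * Ti h W b SU SV a r (c a r) m n1 n2| ≤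
      ∑ m ∈ Ioc M (2 * M), ∑ n ∈ Ioc N (2 * N), β n ^ 2 * ind (Cd h a (m * n) ∧ Cd h r (m * n)) *
        (Gd h (m * n) ^ 5 * Cs) := by
    intro a ha r hr
    have hth := hth1 a ha
    rw [abs_mul, abs_of_nonneg hth]
    have hW := hy.wpos
    have hpp := hpos a ha r hr
    have ht : 0 < W * Pr a * Pr r := by
      rw [mul_assoc]
      exact Nat.mul_pos hW hpp
    have hB : |∑ m ∈ Ioc M (2 * M), ∑ n1 ∈ Ioc N (2 * N), ∑ n2 ∈ Ioc N (2 * N),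
        β n1 * β n2 * Ti h W b SU SV a r (c a r) m n1 n2| ≤
        ∑ m ∈ Ioc M (2 * M), ∑ n ∈ Ioc N (2 * N), β n ^ 2 * ind (Lc h W b a r (m * n)) *
        ((Gd h (m * n) ^ 2 + Ph K Z) ^ 2 + Gd h (m * n) ^ 4 *
          (K ^ 2 * Gd h (m * n) * (N / (((W * Pr a * Pr r : ℕ) : ℝ) * D) + 1) +
            kap K Z D * (N / ((W * Pr a * Pr r : ℕ) : ℝ)))) := by
      refine (abs_sum_le_sum_abs _ _).trans (sum_le_sum fun m hm => ?_)
      refine le_trans ?_ (E_bound hy hD (hP a ha r hr) (hc1 a r) (hcs a r) ht β (hx m hm))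
      exact (abs_sum_le_sum_abs _ _).trans (sum_le_sum fun n1 _ => abs_sum_le_sum_abs _ _)
    refine (mul_le_mul_of_nonneg_left hB hth).trans ?_
    rw [mul_sum]
    apply sum_le_sum
    intro m hm
    rw [mul_sum]
    apply sum_le_sum
    intro n hn
    have hG := one_le_Gd (hx m hm n hn)
    set G := Gd h (m * n) with hGdef
    have hind : ind (Lc h W b a r (m * n)) ≤ ind (Cd h a (m * n) ∧ Cd h r (m * n)) :=
      ind_mono fun hh => hh.2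
    set T : ℝ := ((W * Pr a * Pr r : ℕ) : ℝ) with hT
    have hT0 : 0 < T := by rw [hT]; exact_mod_cast ht
    have hTge : th a * (RA * RB) ≤ T := by
      refine (hsar a ha r hr).trans ?_
      rw [hT]
      push_cast
      have h1 : (1 : ℝ) ≤ W := by exact_mod_cast hW
      have h2 : (0 : ℝ) ≤ (Pr a : ℝ) * Pr r := by positivity
      nlinarith
    have hthT : th a / T ≤ 1 / (RA * RB) := by
      rw [div_le_div_iff₀ hT0 (by positivity)]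
      linarith
    have hN0 : (0 : ℝ) ≤ N := Nat.cast_nonneg N
    -- the bracket
    have hbr : th a * ((G ^ 2 + Ph K Z) ^ 2 + G ^ 4 * (K ^ 2 * G * (N / (T * D) + 1) +
        kap K Z D * (N / T))) ≤ G ^ 5 * Cs := by
      have hG4 : G ^ 4 ≤ G ^ 5 := pow_le_pow_right₀ hG (by norm_num)
      have hG50 : 0 ≤ G ^ 5 := by positivity
      have hXe : th a ≤ Xe := hth2 a ha
      have g1 : (G ^ 2 + Ph K Z) ^ 2 ≤ G ^ 5 * (4 * Ph K Z ^ 2) := by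
        have g2 : G ^ 2 + Ph K Z ≤ 2 * (G ^ 2 * Ph K Z) := by
          have : 1 ≤ G ^ 2 := one_le_pow₀ hG
          nlinarith
        calc (G ^ 2 + Ph K Z) ^ 2 ≤ (2 * (G ^ 2 * Ph K Z)) ^ 2 :=
              pow_le_pow_left₀ (by positivity) g2 2
          _ = G ^ 4 * (4 * Ph K Z ^ 2) := by ring
          _ ≤ _ := mul_le_mul_of_nonneg_right hG4 (by positivity)
      have g3 : th a * (G ^ 2 + Ph K Z) ^ 2 ≤ Xe * (G ^ 5 * (4 * Ph K Z ^ 2)) :=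
        mul_le_mul hXe g1 (by positivity) (hth.trans hXe)
      have g4 : th a * (G ^ 4 * (K ^ 2 * G * (N / (T * D) + 1) + kap K Z D * (N / T))) ≤
          G ^ 5 * (N / (RA * RB) * (K ^ 2 / D + kap K Z D)) + Xe * (G ^ 5 * K ^ 2) := by
        have e1 : th a * (G ^ 4 * (K ^ 2 * G * (N / (T * D) + 1) + kap K Z D * (N / T))) =
            G ^ 5 * (K ^ 2 / D * N * (th a / T)) + th a * (G ^ 5 * K ^ 2) +
            G ^ 4 * (kap K Z D * N * (th a / T)) := by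
          field_simp
        rw [e1]
        have a1 : G ^ 5 * (K ^ 2 / D * N * (th a / T)) ≤
            G ^ 5 * (K ^ 2 / D * N * (1 / (RA * RB))) := by gcongr
        have a2 : th a * (G ^ 5 * K ^ 2) ≤ Xe * (G ^ 5 * K ^ 2) :=
          mul_le_mul_of_nonneg_right hXe (by positivity)
        have a3 : G ^ 4 * (kap K Z D * N * (th a / T)) ≤
            G ^ 5 * (kap K Z D * N * (1 / (RA * RB))) := by gcongr
        calc _ ≤ G ^ 5 * (K ^ 2 / D * N * (1 / (RA * RB))) + Xe * (G ^ 5 * K ^ 2) +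
              G ^ 5 * (kap K Z D * N * (1 / (RA * RB))) := add_le_add (add_le_add a1 a2) a3
          _ = _ := by ring
      rw [mul_add]
      refine (add_le_add g3 g4).trans (le_of_eq ?_)
      rw [hCs]
      ring
    have hbr0 : 0 ≤ G ^ 5 * Cs := by
      refine le_trans ?_ hbr
      positivity
    calc th a * (β n ^ 2 * ind (Lc h W b a r (m * n)) * ((G ^ 2 + Ph K Z) ^ 2 + G ^ 4 *
          (K ^ 2 * G * (N / (T * D) + 1) + kap K Z D * (N / T))))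
        = β n ^ 2 * ind (Lc h W b a r (m * n)) * (th a * ((G ^ 2 + Ph K Z) ^ 2 + G ^ 4 *
          (K ^ 2 * G * (N / (T * D) + 1) + kap K Z D * (N / T)))) := by ring
      _ ≤ β n ^ 2 * ind (Lc h W b a r (m * n)) * (G ^ 5 * Cs) :=
          mul_le_mul_of_nonneg_left hbr (mul_nonneg (sq_nonneg _) (ind_nonneg _))
      _ ≤ β n ^ 2 * ind (Cd h a (m * n) ∧ Cd h r (m * n)) * (G ^ 5 * Cs) :=
          mul_le_mul_of_nonneg_right (mul_le_mul_of_nonneg_left hind (sq_nonneg _)) hbr0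
  have hCs0 : 0 ≤ Cs := by positivity
  refine (abs_sum_le_sum_abs _ _).trans ?_
  refine (sum_le_sum fun a ha => (abs_sum_le_sum_abs _ _).trans
    (sum_le_sum fun r hr => hfix a ha r hr)).trans ?_
  -- move the sums over a, r inside
  have hsw : ∑ a ∈ SA, ∑ r ∈ SB, ∑ m ∈ Ioc M (2 * M), ∑ n ∈ Ioc N (2 * N),
      β n ^ 2 * ind (Cd h a (m * n) ∧ Cd h r (m * n)) * (Gd h (m * n) ^ 5 * Cs) =
      ∑ m ∈ Ioc M (2 * M), ∑ n ∈ Ioc N (2 * N), β n ^ 2 * (Gd h (m * n) ^ 5 * Cs) *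
        ∑ a ∈ SA, ∑ r ∈ SB, ind (Cd h a (m * n) ∧ Cd h r (m * n)) := by
    rw [← sum_product' SA SB (fun a r => ∑ m ∈ Ioc M (2 * M), ∑ n ∈ Ioc N (2 * N),
      β n ^ 2 * ind (Cd h a (m * n) ∧ Cd h r (m * n)) * (Gd h (m * n) ^ 5 * Cs)), sum_comm]
    apply sum_congr rfl
    intro m _
    rw [sum_comm]
    apply sum_congr rfl
    intro n _
    rw [← sum_product' SA SB (fun a r => ind (Cd h a (m * n) ∧ Cd h r (m * n))), mul_sum]
    apply sum_congr rfl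
    intro z _
    ring
  rw [hsw, mul_sum]
  apply sum_le_sum
  intro m hm
  rw [mul_sum]
  apply sum_le_sum
  intro n hn
  have hG := one_le_Gd (hx m hm n hn)
  have h1 := card_pairs' (hx m hm n hn) SA SB
  calc β n ^ 2 * (Gd h (m * n) ^ 5 * Cs) *
        ∑ a ∈ SA, ∑ r ∈ SB, ind (Cd h a (m * n) ∧ Cd h r (m * n))
      ≤ β n ^ 2 * (Gd h (m * n) ^ 5 * Cs) * Gd h (m * n) ^ 2 :=
        mul_le_mul_of_nonneg_left h1 (by positivity)
    _ = _ := by ring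

end Pool.Agent.Y474.TRIV
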